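import Pool.Agent.X113.PairGen

set_option autoImplicit false

/-! # The second moment of window counts and the integral of the pair counts -/

namespace Pool.Agent.X127.CS

open MeasureTheory Set
open Pool.Agent.X113.PG

variable {ι : Type*} (S : Finset ι) (m x : ι → ℝ)

/-- pairs with the larger coordinate in `(A, B]`, with the weight `(h - |x - x'|)⁺` -/
noncomputable def tr (A B h : ℝ) : ℝ := ∑ s ∈ S, ∑ s' ∈ S, m s * m s' *
  (if A < max (x s) (x s') ∧ max (x s) (x s') ≤ B then max (h - |x s - x s'|) 0 else 0)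

/-- pairs with equal coordinates in `(A, B]` -/
noncomputable def dg (A B : ℝ) : ℝ := ∑ s ∈ S, ∑ s' ∈ S, m s * m s' *
  (if A < x s ∧ x s ≤ B ∧ x s = x s' then 1 else 0)

variable {S m x}

lemma ite_mul_ite {P Q R : Prop} [Decidable P] [Decidable Q] [Decidable R] (h : R ↔ P ∧ Q) :
    (if P then (1 : ℝ) else 0) * (if Q then 1 else 0) = (if R then 1 else 0) := by
  by_cases hP : P
  · by_cases hQ : Q
    · rw [if_pos hP, if_pos hQ, if_pos (h.2 ⟨hP, hQ⟩), mul_one]
    · have hR : ¬ R := fun z => hQ (h.1 z).2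
      rw [if_neg hQ, if_neg hR, mul_zero]
  · have hR : ¬ R := fun z => hP (h.1 z).1
    rw [if_neg hP, if_neg hR, zero_mul]

lemma cn_sq (h t : ℝ) : cn S m x h t ^ 2 = ∑ s ∈ S, ∑ s' ∈ S,
    m s * m s' * W (max (x s) (x s') - h) (h - |x s - x s'|) t := by
  have e : cn S m x h t ^ 2 = cn S m x h (t + 0) * cn S m x h t := by rw [add_zero]; ring
  rw [e, cn_prod]
  refine Finset.sum_congr rfl fun s _ => Finset.sum_congr rfl fun s' _ => ?_
  congr 1
  unfold W
  rw [add_zero]
  apply ite_mul_ite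
  rcases le_total (x s) (x s') with c | c
  · rw [max_eq_right c, abs_of_nonpos (by linarith)]
    constructor
    · rintro ⟨z1, z2⟩
      exact ⟨⟨by linarith, by linarith⟩, ⟨by linarith, by linarith⟩⟩
    · rintro ⟨⟨z1, z2⟩, ⟨z3, z4⟩⟩
      exact ⟨by linarith, by linarith⟩
  · rw [max_eq_left c, abs_of_nonneg (by linarith)]
    constructor
    · rintro ⟨z1, z2⟩
      exact ⟨⟨by linarith, by linarith⟩, ⟨by linarith, by linarith⟩⟩
    · rintro ⟨⟨z1, z2⟩, ⟨z3, z4⟩⟩
      exact ⟨by linarith, by linarith⟩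

lemma dsum_int2 (c u d : ι → ι → ℝ) (A B : ℝ) :
    IntervalIntegrable (fun t => ∑ s ∈ S, ∑ s' ∈ S, c s s' * W (u s s') (d s s') t)
      volume A B := by
  have h2 : ∀ s ∈ S, IntervalIntegrable (fun t => ∑ s' ∈ S, c s s' * W (u s s') (d s s') t)
      volume A B := fun s _ => by
    have h3 : ∀ s' ∈ S, IntervalIntegrable (fun t => c s s' * W (u s s') (d s s') t)
        volume A B := fun s' _ => (W_int _ _ _ _).const_mul _
    exact ii_sum h3
  exact ii_sum h2

lemma dsum_eq2 (c u d : ι → ι → ℝ) (A B : ℝ) :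
    ∫ t in A..B, ∑ s ∈ S, ∑ s' ∈ S, c s s' * W (u s s') (d s s') t =
      ∑ s ∈ S, ∑ s' ∈ S, c s s' * ∫ t in A..B, W (u s s') (d s s') t := by
  have h2 : ∀ s ∈ S, IntervalIntegrable (fun t => ∑ s' ∈ S, c s s' * W (u s s') (d s s') t)
      volume A B := fun s _ => by
    have h3 : ∀ s' ∈ S, IntervalIntegrable (fun t => c s s' * W (u s s') (d s s') t)
        volume A B := fun s' _ => (W_int _ _ _ _).const_mul _
    exact ii_sum h3
  rw [intervalIntegral.integral_finsetSum h2]
  refine Finset.sum_congr rfl fun s _ => ?_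
  rw [intervalIntegral.integral_finsetSum fun s' _ => (W_int _ _ _ _).const_mul _]
  refine Finset.sum_congr rfl fun s' _ => ?_
  rw [intervalIntegral.integral_const_mul]

lemma W_neg {u d : ℝ} (hd : d ≤ 0) (t : ℝ) : W u d t = 0 := by
  unfold W
  rw [if_neg (fun z => by linarith [z.1, z.2])]

lemma W_up2 {A B : ℝ} (u d : ℝ) (hAB : A ≤ B) : ∫ t in A..B, W u d t ≤ max d 0 := by
  rcases le_total 0 d with h | h
  · exact (W_up hAB h).trans (le_max_left _ _)
  · have : ∫ t in A..B, W u d t = 0 := by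
      simp_rw [W_neg h]
      simp
    rw [this]
    exact le_max_right _ _

lemma cn_sq_int (hm : ∀ s, 0 ≤ m s) (h A B : ℝ) :
    IntervalIntegrable (fun t => cn S m x h t ^ 2) volume A B := by
  have h1 := cn_prod_int (S := S) (x := x) hm h 0 h A B
  simpa [sq] using h1

lemma sq_up (hm : ∀ s, 0 ≤ m s) {A B h : ℝ} (hAB : A ≤ B) :
    ∫ t in A..B, cn S m x h t ^ 2 ≤ tr S m x A (B + h) h := by
  set c : ι → ι → ℝ := fun s s' => m s * m s' *
    (if A < max (x s) (x s') ∧ max (x s) (x s') ≤ B + h then 1 else 0) with hc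
  have hc0 : ∀ s s', 0 ≤ c s s' := fun s s' =>
    mul_nonneg (mul_nonneg (hm s) (hm s')) (ite01 _)
  have h1 : ∫ t in A..B, cn S m x h t ^ 2 ≤ ∫ t in A..B, ∑ s ∈ S, ∑ s' ∈ S,
      c s s' * W (max (x s) (x s') - h) (h - |x s - x s'|) t := by
    refine intervalIntegral.integral_mono_on hAB (cn_sq_int hm h A B)
      (dsum_int2 c _ _ A B) fun t ht => ?_
    rw [cn_sq]
    refine Finset.sum_le_sum fun s _ => Finset.sum_le_sum fun s' _ => ?_
    simp only [hc]
    rw [mul_assoc (m s * m s')]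
    refine mul_le_mul_of_nonneg_left ?_ (mul_nonneg (hm s) (hm s'))
    by_cases c1 : max (x s) (x s') - h ≤ t ∧ t < max (x s) (x s') - h + (h - |x s - x s'|)
    · have h0 : 0 ≤ |x s - x s'| := abs_nonneg _
      rw [if_pos ⟨by linarith [c1.2, ht.1], by linarith [c1.1, ht.2]⟩, one_mul]
    · unfold W
      rw [if_neg c1, mul_zero]
  refine h1.trans ?_
  rw [dsum_eq2]
  unfold tr
  refine Finset.sum_le_sum fun s _ => Finset.sum_le_sum fun s' _ => ?_
  have h2 := mul_le_mul_of_nonneg_left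
    (W_up2 (max (x s) (x s') - h) (h - |x s - x s'|) hAB) (hc0 s s')
  refine h2.trans (le_of_eq ?_)
  simp only [hc]
  split_ifs <;> ring

lemma sq_lo (hm : ∀ s, 0 ≤ m s) {A B h : ℝ} (hAB : A ≤ B) :
    tr S m x (A + h) B h ≤ ∫ t in A..B, cn S m x h t ^ 2 := by
  set c : ι → ι → ℝ := fun s s' => m s * m s' *
    (if A + h < max (x s) (x s') ∧ max (x s) (x s') ≤ B then 1 else 0) with hc
  have hc0 : ∀ s s', 0 ≤ c s s' := fun s s' =>
    mul_nonneg (mul_nonneg (hm s) (hm s')) (ite01 _)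
  have h1 : ∫ t in A..B, ∑ s ∈ S, ∑ s' ∈ S,
      c s s' * W (max (x s) (x s') - h) (h - |x s - x s'|) t ≤
      ∫ t in A..B, cn S m x h t ^ 2 := by
    refine intervalIntegral.integral_mono_on hAB
      (dsum_int2 c _ _ A B) (cn_sq_int hm h A B) fun t ht => ?_
    rw [cn_sq]
    refine Finset.sum_le_sum fun s _ => Finset.sum_le_sum fun s' _ => ?_
    refine mul_le_mul_of_nonneg_right ?_ (W_nonneg _ _ _)
    simp only [hc]
    exact mul_le_of_le_one_right (mul_nonneg (hm s) (hm s')) (ite_le_one _)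
  refine le_trans ?_ h1
  rw [dsum_eq2]
  unfold tr
  refine Finset.sum_le_sum fun s _ => Finset.sum_le_sum fun s' _ => ?_
  simp only [hc]
  by_cases c1 : A + h < max (x s) (x s') ∧ max (x s) (x s') ≤ B
  · rw [if_pos c1, if_pos c1, mul_one]
    refine mul_le_mul_of_nonneg_left ?_ (mul_nonneg (hm s) (hm s'))
    rcases le_total 0 (h - |x s - x s'|) with h3 | h3
    · rw [max_eq_left h3]
      have h0 : 0 ≤ |x s - x s'| := abs_nonneg _
      exact W_lo (by linarith [c1.1]) (by linarith [c1.2]) h3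
    · rw [max_eq_right h3]
      exact intervalIntegral.integral_nonneg hAB fun t _ => W_nonneg _ _ _
  · rw [if_neg c1, if_neg c1]; simp

lemma tr_add {A B C : ℝ} (h1 : A ≤ B) (h2 : B ≤ C) (h : ℝ) :
    tr S m x A C h = tr S m x A B h + tr S m x B C h := by
  unfold tr
  rw [← Finset.sum_add_distrib]
  refine Finset.sum_congr rfl fun s _ => ?_
  rw [← Finset.sum_add_distrib]
  refine Finset.sum_congr rfl fun s' _ => ?_
  rw [← mul_add]
  congr 1
  set M := max (x s) (x s')
  by_cases a1 : A < M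
  · by_cases a2 : M ≤ B
    · rw [if_pos ⟨a1, by linarith⟩, if_pos ⟨a1, a2⟩, if_neg (fun z => by linarith [z.1]), add_zero]
    · by_cases a3 : M ≤ C
      · rw [if_pos ⟨a1, a3⟩, if_neg (fun z => a2 z.2), if_pos ⟨by linarith, a3⟩, zero_add]
      · rw [if_neg (fun z => a3 z.2), if_neg (fun z => a2 z.2), if_neg (fun z => a3 z.2), add_zero]
  · rw [if_neg (fun z => a1 z.1), if_neg (fun z => a1 z.1),
      if_neg (fun z => a1 (by linarith [z.1])), add_zero]

lemma tr_nonneg (hm : ∀ s, 0 ≤ m s) (A B h : ℝ) : 0 ≤ tr S m x A B h := by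
  refine Finset.sum_nonneg fun s _ => Finset.sum_nonneg fun s' _ =>
    mul_nonneg (mul_nonneg (hm s) (hm s')) ?_
  split_ifs
  · exact le_max_right _ _
  · exact le_rfl

lemma tr_edge (hm : ∀ s, 0 ≤ m s) {A η h : ℝ} (hh : 0 ≤ h) :
    tr S m x A (A + η) h ≤ h * cn S m x (h + η) (A - h) ^ 2 := by
  have e : cn S m x (h + η) (A - h) ^ 2 =
      cn S m x (h + η) (A - h + 0) * cn S m x (h + η) (A - h) := by rw [add_zero]; ring
  rw [e, cn_prod]
  unfold tr
  rw [Finset.mul_sum]
  refine Finset.sum_le_sum fun s _ => ?_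
  rw [Finset.mul_sum]
  refine Finset.sum_le_sum fun s' _ => ?_
  rw [mul_left_comm h (m s * m s')]
  refine mul_le_mul_of_nonneg_left ?_ (mul_nonneg (hm s) (hm s'))
  by_cases c1 : A < max (x s) (x s') ∧ max (x s) (x s') ≤ A + η
  · rw [if_pos c1]
    rcases le_or_gt (h - |x s - x s'|) 0 with h3 | h3
    · rw [max_eq_right h3]
      exact mul_nonneg hh (mul_nonneg (ite01 _) (ite01 _))
    · have h4 := abs_lt.1 (show |x s - x s'| < h by linarith)
      have h5 := le_max_left (x s) (x s')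
      have h6 := le_max_right (x s) (x s')
      have h7 : A - h < x s ∧ A - h < x s' := by
        rcases le_total (x s) (x s') with c | c
        · rw [max_eq_right c] at c1
          exact ⟨by linarith [c1.1], by linarith [c1.1]⟩
        · rw [max_eq_left c] at c1
          exact ⟨by linarith [c1.1], by linarith [c1.1]⟩
      rw [if_pos (show A - h + 0 < x s ∧ x s ≤ A - h + 0 + (h + η) from
        ⟨by linarith [h7.1], by linarith [c1.2]⟩),
        if_pos (show A - h < x s' ∧ x s' ≤ A - h + (h + η) from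
        ⟨by linarith [h7.2], by linarith [c1.2]⟩), mul_one, mul_one]
      have h0 : 0 ≤ |x s - x s'| := abs_nonneg _
      exact max_le (by linarith) hh
  · rw [if_neg c1]
    exact mul_nonneg hh (mul_nonneg (ite01 _) (ite01 _))

/-- the second moment and the weighted count of pairs -/
lemma sq_tr (hm : ∀ s, 0 ≤ m s) {A B h : ℝ} (hh : 0 ≤ h) (hAB : A + h ≤ B) :
    |(∫ t in A..B, cn S m x h t ^ 2) - tr S m x A B h| ≤
      h * cn S m x (h + h) (A - h) ^ 2 + h * cn S m x (h + h) (B - h) ^ 2 := by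
  have h1 := sq_up (S := S) (x := x) hm (A := A) (B := B) (h := h) (by linarith)
  have h2 := sq_lo (S := S) (x := x) hm (A := A) (B := B) (h := h) (by linarith)
  have h3 := tr_edge (S := S) (x := x) hm (A := A) (η := h) (h := h) hh
  have h4 := tr_edge (S := S) (x := x) hm (A := B) (η := h) (h := h) hh
  have h5 := tr_add (S := S) (m := m) (x := x) (A := A) (B := B) (C := B + h) (by linarith)
    (by linarith) h
  have h6 := tr_add (S := S) (m := m) (x := x) (A := A) (B := A + h) (C := B) (by linarith)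
    (by linarith) h
  have h7 : 0 ≤ h * cn S m x (h + h) (A - h) ^ 2 := by positivity
  have h8 : 0 ≤ h * cn S m x (h + h) (B - h) ^ 2 := by positivity
  rw [abs_le]
  constructor <;> linarith

lemma int_ind {d h : ℝ} (hd : 0 < d) (hh : 0 ≤ h) :
    ∫ k in (0:ℝ)..h, (if d ≤ k then (1 : ℝ) else 0) = max (h - d) 0 := by
  rcases lt_or_ge h d with c | c
  · rw [max_eq_right (by linarith)]
    have : ∫ k in (0:ℝ)..h, (if d ≤ k then (1 : ℝ) else 0) = ∫ k in (0:ℝ)..h, (0 : ℝ) := by
      refine intervalIntegral.integral_congr fun k hk => ?_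
      rw [uIcc_of_le hh] at hk
      show (if d ≤ k then (1 : ℝ) else 0) = 0
      rw [if_neg (by linarith [hk.2])]
    rw [this]; simp
  · rw [max_eq_left (by linarith)]
    have e : ∫ k in (0:ℝ)..h, (if d ≤ k then (1 : ℝ) else 0) =
        ∫ k in (0:ℝ)..h, W d (h + 1 - d) k := by
      refine intervalIntegral.integral_congr fun k hk => ?_
      rw [uIcc_of_le hh] at hk
      show (if d ≤ k then (1 : ℝ) else 0) = W d (h + 1 - d) k
      unfold W
      by_cases c1 : d ≤ k
      · rw [if_pos c1, if_pos ⟨c1, by linarith [hk.2]⟩]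
      · rw [if_neg c1, if_neg (fun z => c1 z.1)]
    rw [e, W_eq _ _ hh]
    have e2 : Ioc 0 h ∩ Ico d (d + (h + 1 - d)) = Icc d h := by
      ext k
      constructor
      · rintro ⟨⟨a1, a2⟩, a3, a4⟩
        exact ⟨a3, a2⟩
      · rintro ⟨a1, a2⟩
        exact ⟨⟨by linarith, a2⟩, a1, by linarith⟩
    rw [e2, Real.volume_real_Icc_of_le c]

lemma pr_int_eq {A B h : ℝ} (hh : 0 ≤ h) : ∫ k in (0:ℝ)..h, pr S m x A B k =
    ∑ s ∈ S, ∑ s' ∈ S, m s * m s' *
      (if A < x s ∧ x s ≤ B ∧ 0 < x s - x s' then max (h - (x s - x s')) 0 else 0) := by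
  unfold pr
  have hI : ∀ s s', IntervalIntegrable (fun k => m s * m s' *
      (if A < x s ∧ x s ≤ B ∧ 0 < x s - x s' ∧ x s - x s' ≤ k then (1 : ℝ) else 0))
      volume 0 h := by
    intro s s'
    refine IntervalIntegrable.const_mul ?_ _
    refine bdd_ii (M := 1) ?_ ?_ _ _
    · refine Measurable.ite ?_ measurable_const measurable_const
      by_cases c : A < x s ∧ x s ≤ B ∧ 0 < x s - x s'
      · have : {k : ℝ | A < x s ∧ x s ≤ B ∧ 0 < x s - x s' ∧ x s - x s' ≤ k} =
          Ici (x s - x s') := by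
          ext k
          exact ⟨fun z => z.2.2.2, fun z => ⟨c.1, c.2.1, c.2.2, z⟩⟩
        rw [this]; exact measurableSet_Ici
      · have : {k : ℝ | A < x s ∧ x s ≤ B ∧ 0 < x s - x s' ∧ x s - x s' ≤ k} = ∅ := by
          ext k
          exact ⟨fun z => c ⟨z.1, z.2.1, z.2.2.1⟩, fun z => z.elim⟩
        rw [this]; exact MeasurableSet.empty
    · intro k
      rw [abs_of_nonneg (ite01 _)]
      exact ite_le_one _
  rw [intervalIntegral.integral_finsetSum fun s _ => ii_sum fun s' _ => hI s s']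
  refine Finset.sum_congr rfl fun s _ => ?_
  rw [intervalIntegral.integral_finsetSum fun s' _ => hI s s']
  refine Finset.sum_congr rfl fun s' _ => ?_
  rw [intervalIntegral.integral_const_mul]
  congr 1
  by_cases c : A < x s ∧ x s ≤ B ∧ 0 < x s - x s'
  · rw [if_pos c, ← int_ind c.2.2 hh]
    refine intervalIntegral.integral_congr fun k _ => ?_
    show (if A < x s ∧ x s ≤ B ∧ 0 < x s - x s' ∧ x s - x s' ≤ k then (1 : ℝ) else 0) =
      (if x s - x s' ≤ k then 1 else 0)
    by_cases c1 : x s - x s' ≤ k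
    · rw [if_pos ⟨c.1, c.2.1, c.2.2, c1⟩, if_pos c1]
    · rw [if_neg (fun z => c1 z.2.2.2), if_neg c1]
  · rw [if_neg c]
    have : ∫ k in (0:ℝ)..h, (if A < x s ∧ x s ≤ B ∧ 0 < x s - x s' ∧ x s - x s' ≤ k
        then (1 : ℝ) else 0) = ∫ k in (0:ℝ)..h, (0 : ℝ) := by
      refine intervalIntegral.integral_congr fun k _ => ?_
      show (if A < x s ∧ x s ≤ B ∧ 0 < x s - x s' ∧ x s - x s' ≤ k then (1 : ℝ) else 0) = 0
      rw [if_neg (fun z => c ⟨z.1, z.2.1, z.2.2.1⟩)]
    rw [this]; simp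

/-- the weighted count of pairs as an integral of pair counts -/
lemma tr_eq {A B h : ℝ} (hh : 0 ≤ h) :
    tr S m x A B h = h * dg S m x A B + 2 * ∫ k in (0:ℝ)..h, pr S m x A B k := by
  rw [pr_int_eq hh]
  have hsw : ∑ s ∈ S, ∑ s' ∈ S, m s * m s' *
      (if A < x s ∧ x s ≤ B ∧ 0 < x s - x s' then max (h - (x s - x s')) 0 else 0) =
      ∑ s ∈ S, ∑ s' ∈ S, m s * m s' *
      (if A < x s' ∧ x s' ≤ B ∧ 0 < x s' - x s then max (h - (x s' - x s)) 0 else 0) := by
    rw [Finset.sum_comm]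
    refine Finset.sum_congr rfl fun s _ => Finset.sum_congr rfl fun s' _ => ?_
    rw [mul_comm (m s') (m s)]
  rw [two_mul]
  nth_rewrite 2 [hsw]
  unfold tr dg
  rw [Finset.mul_sum, ← Finset.sum_add_distrib, ← Finset.sum_add_distrib]
  refine Finset.sum_congr rfl fun s _ => ?_
  rw [Finset.mul_sum, ← Finset.sum_add_distrib, ← Finset.sum_add_distrib]
  refine Finset.sum_congr rfl fun s' _ => ?_
  have e : ∀ a b c d : ℝ, a = h * b + (c + d) → m s * m s' * a =
      h * (m s * m s' * b) + (m s * m s' * c + m s * m s' * d) := by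
    intro a b c d H
    rw [H]; ring
  apply e
  rcases lt_trichotomy (x s) (x s') with c | c | c
  · have n1 : ¬ (A < x s ∧ x s ≤ B ∧ x s = x s') := fun z => by linarith [z.2.2]
    have n2 : ¬ (A < x s ∧ x s ≤ B ∧ 0 < x s - x s') := fun z => by linarith [z.2.2]
    rw [max_eq_right c.le, abs_of_neg (by linarith), if_neg n1, if_neg n2]
    by_cases c1 : A < x s' ∧ x s' ≤ B
    · rw [if_pos c1, if_pos ⟨c1.1, c1.2, by linarith⟩, neg_sub]
      ring
    · rw [if_neg c1, if_neg (fun z => c1 ⟨z.1, z.2.1⟩)]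
      ring
  · rw [← c, max_self, sub_self, abs_zero, sub_zero, max_eq_left hh]
    have n2 : ¬ (A < x s ∧ x s ≤ B ∧ (0 : ℝ) < 0) := fun z => lt_irrefl _ z.2.2
    rw [if_neg n2]
    by_cases c1 : A < x s ∧ x s ≤ B
    · rw [if_pos c1, if_pos ⟨c1.1, c1.2, rfl⟩]
      ring
    · rw [if_neg c1, if_neg (fun z => c1 ⟨z.1, z.2.1⟩)]
      ring
  · have n1 : ¬ (A < x s ∧ x s ≤ B ∧ x s = x s') := fun z => by linarith [z.2.2]
    have n2 : ¬ (A < x s' ∧ x s' ≤ B ∧ 0 < x s' - x s) := fun z => by linarith [z.2.2]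
    rw [max_eq_left c.le, abs_of_pos (by linarith), if_neg n1, if_neg n2]
    by_cases c1 : A < x s ∧ x s ≤ B
    · rw [if_pos c1, if_pos ⟨c1.1, c1.2, by linarith⟩]
      ring
    · rw [if_neg c1, if_neg (fun z => c1 ⟨z.1, z.2.1⟩)]
      ring

end Pool.Agent.X127.CS
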