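import Pool.Agent.X113.PC2
import Pool.Agent.X127.CS.Gen

set_option autoImplicit false

/-! # The integral of the pair counts of the zeros of zeta: dyadic blocks -/

namespace Pool.Agent.X127.CS

open Filter Topology MeasureTheory Set
open H370 (Zf mult mem_Zf good_zeta NN NN_eq zset)
open Pool.Agent.TH850.UV (NS mS mS_nonneg cnt cnt_eq cnt_crude nv2)
open Pool.Agent.X113.PG
open Pool.Agent.X113.PC

/-- the main term -/
noncomputable def MT (T h : ℝ) : ℝ := h ^ 2 * T * Real.log T ^ 2 / (4 * Real.pi ^ 2) +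
  T / Real.pi ^ 2 * Real.log (1 + h * Real.log T / (2 * Real.pi))

theorem block2 (K : ℝ) (hK : 0 ≤ K) : ∃ C U0 : ℝ, 0 < C ∧ 100 ≤ U0 ∧ ∀ U : ℝ, U0 ≤ U →
    10 ≤ Real.log U ∧ ∀ h : ℝ, 0 < h → h ≤ 3 → h ^ 2 * Real.log U ≤ K →
    |(h * dg (SU U) mS Complex.im U (2 * U) +
      2 * ∫ k in (0:ℝ)..h, pr (SU U) mS Complex.im U (2 * U) k) - MT U h| ≤ C * U := by
  obtain ⟨C, U0, hC, hU0, hf⟩ := facts (K + 1) (by linarith)
  refine ⟨(K + 2) * C, U0, by positivity, hU0, fun U hU => ?_⟩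
  obtain ⟨f1, f2, f3, f4, f5, f6⟩ := hf U hU
  refine ⟨f1, fun h h0 h3 hcond => ?_⟩
  have hpi := Real.pi_pos
  have hpi3 := Real.pi_gt_three
  have hU1 : 100 ≤ U := hU0.trans hU
  have hUp : 0 < U := by linarith
  have hL0 : 0 < Real.log U := by linarith
  obtain ⟨L, hL⟩ : ∃ L, L = Real.log U := ⟨_, rfl⟩
  rw [← hL] at f1 f2 f3 f4 f5 f6 hcond hL0
  obtain ⟨a, ha⟩ : ∃ a, a = h * L / (2 * Real.pi) := ⟨_, rfl⟩
  have ha0 : 0 < a := by rw [ha]; positivity
  have eh : 2 * Real.pi * a / L = h := by rw [ha]; field_simp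
  have ha2 : a ^ 2 ≤ K * L := by
    have e1 : a ^ 2 = h ^ 2 * L * L / (4 * Real.pi ^ 2) := by rw [ha]; field_simp; ring
    rw [e1, div_le_iff₀ (by positivity)]
    have e2 : h ^ 2 * L * L ≤ K * L := mul_le_mul_of_nonneg_right hcond hL0.le
    have e3 : 0 ≤ K * L := by positivity
    have e4 : (1 : ℝ) ≤ 4 * Real.pi ^ 2 := by nlinarith
    have e5 := mul_le_mul_of_nonneg_left e4 e3
    linarith
  have halog : a * Real.log a ≤ (K + 1) * L := by
    have e1 := Real.log_le_sub_one_of_pos ha0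
    nlinarith
  have q1 := f6 a ha0 halog (by rw [eh]; linarith)
  rw [eh] at q1
  have m1 : BM (cc U h) := BM.cc U h
  have s1 := first_moment hC hU1 (by rw [← hL]; exact f1) (by rw [← hL]; exact f2)
    (by rw [← hL]; exact f4) (by rw [← hL]; exact f5) (h := 0) (k := h) le_rfl h0.le (by linarith)
  simp only [add_zero] at s1
  rw [← hL] at s1
  have z1 : h * (U * L / (2 * Real.pi)) = a * U := by rw [ha]; ring
  rw [z1] at s1
  -- the second moment
  have hexp : ∫ t in U..(2 * U), cc U h t ^ 2 = (∫ t in U..(2 * U), (cc U h t - a) ^ 2) +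
      2 * a * (∫ t in U..(2 * U), cc U h t) - a ^ 2 * U := by
    have e1 : a ^ 2 * U = ∫ t in U..(2 * U), a ^ 2 := by
      rw [intervalIntegral.integral_const, smul_eq_mul]; ring
    have p1 : BM fun t => (cc U h t - a) ^ 2 := (m1.sub (BM.const a)).sq
    have p2 : BM fun t => 2 * a * cc U h t := (BM.const (2 * a)).mul m1
    rw [e1, ← intervalIntegral.integral_const_mul,
      ← intervalIntegral.integral_add (p1.ii _ _) (p2.ii _ _),
      ← intervalIntegral.integral_sub ((p1.add p2).ii _ _) ((BM.const (a ^ 2)).ii _ _)]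
    refine intervalIntegral.integral_congr fun t _ => ?_
    show cc U h t ^ 2 = (cc U h t - a) ^ 2 + 2 * a * cc U h t - a ^ 2
    ring
  have ht := sq_tr (S := SU U) (m := mS) (x := Complex.im) mS_nonneg (A := U) (B := 2 * U)
    (h := h) h0.le (by linarith)
  rw [tr_eq h0.le] at ht
  change |(∫ t in U..(2 * U), cc U h t ^ 2) - _| ≤ h * cc U (h + h) (U - h) ^ 2 +
    h * cc U (h + h) (2 * U - h) ^ 2 at ht
  have g1 := f4 (U - h) (h + h) (by linarith) (by linarith) (by linarith) (by linarith)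
  have g2 := f4 (2 * U - h) (h + h) (by linarith) (by linarith) (by linarith) (by linarith)
  have g3 := pow_le_pow_left₀ (cc_nonneg U (h + h) (U - h)) g1 2
  have g4 := pow_le_pow_left₀ (cc_nonneg U (h + h) (2 * U - h)) g2 2
  have hCL : 0 ≤ C * L := by positivity
  have g5 : h * cc U (h + h) (U - h) ^ 2 + h * cc U (h + h) (2 * U - h) ^ 2 ≤ U := by
    have g6 : h * cc U (h + h) (U - h) ^ 2 ≤ 3 * (C * L) ^ 2 :=
      mul_le_mul h3 g3 (by positivity) (by norm_num)
    have g7 : h * cc U (h + h) (2 * U - h) ^ 2 ≤ 3 * (C * L) ^ 2 :=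
      mul_le_mul h3 g4 (by positivity) (by norm_num)
    nlinarith
  have g8 : |(2 * a * ∫ t in U..(2 * U), cc U h t) - 2 * a * (a * U)| ≤ K * (C * U) := by
    rw [← mul_sub, abs_mul, abs_of_pos (by positivity : 0 < 2 * a)]
    have e1 : 2 * a * (h * (2 * C * U)) ≤ K * (C * U) := by
      have e2 : 2 * a * (h * (2 * C * U)) = (h ^ 2 * L) * (C * U) * (2 / Real.pi) := by
        rw [ha]; field_simp
      rw [e2]
      have e3 : 2 / Real.pi ≤ 1 := by rw [div_le_one hpi]; linarith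
      have e4 : 0 ≤ (h ^ 2 * L) * (C * U) := by positivity
      calc (h ^ 2 * L) * (C * U) * (2 / Real.pi) ≤ (h ^ 2 * L) * (C * U) * 1 :=
            mul_le_mul_of_nonneg_left e3 e4
        _ = (h ^ 2 * L) * (C * U) := mul_one _
        _ ≤ K * (C * U) := mul_le_mul_of_nonneg_right hcond (by positivity)
    exact (mul_le_mul_of_nonneg_left s1 (by positivity)).trans e1
  have hMT : MT U h = a ^ 2 * U + U / Real.pi ^ 2 * Real.log (1 + a) := by
    unfold MT
    rw [← hL, ← ha, ha]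
    field_simp
    ring
  rw [hMT]
  have hUC : U ≤ C * U := by nlinarith
  rw [hexp] at ht
  have q1' := abs_le.1 q1
  have g8' := abs_le.1 g8
  have ht' := abs_le.1 (ht.trans g5)
  rw [abs_le]
  constructor
  · nlinarith only [q1'.1, g8'.1, ht'.2, hUC]
  · nlinarith only [q1'.2, g8'.2, ht'.1, hUC]

end Pool.Agent.X127.CS
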