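import Pool.Agent.X127.CS.Sum

set_option autoImplicit false

/-! # The integral of the pair counts of the zeros of zeta in the normalisation of the problem -/

namespace Pool.Agent.X127.CS

open Filter Topology MeasureTheory Set
open H370 (Zf mult mem_Zf good_zeta NN NN_eq zset)
open Pool.Agent.X113.PC

/-- the pairs of zeros with ordinates in `(0, T]` and `0 < γ - γ' ≤ h` -/
def QSt (T h : ℝ) : Set (ℂ × ℂ) := {p : ℂ × ℂ | p.1 ∈ ZZ ∧ p.2 ∈ ZZ ∧ 0 < p.1.im ∧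
  p.1.im ≤ T ∧ 0 < p.2.im ∧ 0 < p.1.im - p.2.im ∧ p.1.im - p.2.im ≤ h}

/-- the number of pairs of zeros with ordinates in `(0, T]` and `0 < γ - γ' ≤ h` -/
noncomputable def QQ (T h : ℝ) : ℕ := ∑ᶠ p ∈ QSt T h,
  analyticOrderNatAt riemannZeta p.1 * analyticOrderNatAt riemannZeta p.2

lemma QSt_sub (T h : ℝ) : QSt T h ⊆ PSt 0 T h := by
  rintro p ⟨a1, a2, a3, a4, a5, a6, a7⟩
  exact ⟨a1, a2, a3, a4, a6, a7⟩

lemma QSt_fin (T h : ℝ) : (QSt T h).Finite := (PSt_fin 0 T h).subset (QSt_sub T h)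

lemma QQ_mono {T h h' : ℝ} (h2 : h ≤ h') : QQ T h ≤ QQ T h' := by
  unfold QQ
  rw [finsum_mem_eq_finite_toFinset_sum _ (QSt_fin T h),
    finsum_mem_eq_finite_toFinset_sum _ (QSt_fin T h')]
  refine Finset.sum_le_sum_of_subset_of_nonneg ?_ fun _ _ _ => Nat.zero_le _
  intro p hp
  rw [Set.Finite.mem_toFinset] at hp ⊢
  obtain ⟨a1, a2, a3, a4, a5, a6, a7⟩ := hp
  exact ⟨a1, a2, a3, a4, a5, a6, a7.trans h2⟩

lemma QQ_ii (T h h' : ℝ) : IntervalIntegrable (fun k => (QQ T k : ℝ)) volume h h' := by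
  apply Monotone.intervalIntegrable
  intro k k' hk
  show (QQ T k : ℝ) ≤ QQ T k'
  exact_mod_cast QQ_mono hk

lemma QQ_FF {T h : ℝ} (h3 : h ≤ 3) : QQ T h ≤ FF 0 T h ∧ FF 0 T h ≤ QQ T h + FF 0 3 3 := by
  classical
  unfold QQ FF
  rw [finsum_mem_eq_finite_toFinset_sum _ (QSt_fin T h),
    finsum_mem_eq_finite_toFinset_sum _ (PSt_fin 0 T h),
    finsum_mem_eq_finite_toFinset_sum _ (PSt_fin 0 3 3)]
  constructor
  · refine Finset.sum_le_sum_of_subset_of_nonneg ?_ fun _ _ _ => Nat.zero_le _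
    intro p hp
    rw [Set.Finite.mem_toFinset] at hp ⊢
    exact QSt_sub T h hp
  · have hsub : (PSt_fin 0 T h).toFinset ⊆ (QSt_fin T h).toFinset ∪ (PSt_fin 0 3 3).toFinset := by
      intro p hp
      rw [Finset.mem_union]
      rw [Set.Finite.mem_toFinset] at hp
      rw [Set.Finite.mem_toFinset, Set.Finite.mem_toFinset]
      obtain ⟨a1, a2, a3, a4, a5, a6⟩ := hp
      rcases lt_or_ge 0 p.2.im with c | c
      · exact Or.inl ⟨a1, a2, a3, a4, c, a5, a6⟩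
      · exact Or.inr ⟨a1, a2, a3, by linarith, a5, by linarith⟩
    refine (Finset.sum_le_sum_of_subset_of_nonneg hsub fun _ _ _ => Nat.zero_le _).trans ?_
    have := Finset.sum_union_inter (s₁ := (QSt_fin T h).toFinset)
      (s₂ := (PSt_fin 0 3 3).toFinset)
      (f := fun p : ℂ × ℂ => analyticOrderNatAt riemannZeta p.1 *
        analyticOrderNatAt riemannZeta p.2)
    omega

/-- the expected number of ordinates -/
noncomputable def XX (T : ℝ) : ℝ := T * Real.log T / (2 * Real.pi)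

/-- the formula in mean spacings -/
theorem main_b (B : ℝ) (hB : 0 < B) : ∃ C T0 : ℝ, 0 < C ∧ 100 ≤ T0 ∧ ∀ T : ℝ, T0 ≤ T →
    10 ≤ Real.log T ∧ ∀ b : ℝ, 0 < b → b ≤ B * Real.sqrt (Real.log T) →
    |(∫ a in (0:ℝ)..b, (QQ T (2 * Real.pi * a / Real.log T) : ℝ)) -
      (b ^ 2 / 2 * XX T - b / 2 * EE 0 T + Real.log (1 + b) / (2 * Real.pi ^ 2) * XX T)| ≤
      C * XX T := by
  have hpi := Real.pi_pos
  have hpi3 := Real.pi_gt_three
  have hpi4 := Real.pi_lt_d2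
  obtain ⟨C, T0, hC, hT0, hm⟩ := main_h (4 * Real.pi ^ 2 * B ^ 2) (by positivity)
  obtain ⟨T1, hT1⟩ := (Real.tendsto_log_atTop.eventually_ge_atTop
    ((7 * B) ^ 2 + 10 + B)).exists_forall_of_atTop
  obtain ⟨c0, hc0⟩ : ∃ c0 : ℝ, c0 = FF 0 3 3 := ⟨_, rfl⟩
  have hc00 : 0 ≤ c0 := by rw [hc0]; positivity
  refine ⟨C + 7 * c0 * B ^ 2 + c0, max T0 T1, by positivity, hT0.trans (le_max_left _ _),
    fun T hT => ?_⟩
  obtain ⟨hL10, hmm⟩ := hm T ((le_max_left _ _).trans hT)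
  have hLB := hT1 T ((le_max_right _ _).trans hT)
  have hT100 : 100 ≤ T := hT0.trans ((le_max_left _ _).trans hT)
  refine ⟨hL10, fun b hb0 hb => ?_⟩
  have hT00 : 0 < T := by linarith
  obtain ⟨L, hL⟩ : ∃ L, L = Real.log T := ⟨_, rfl⟩
  rw [← hL] at hL10 hLB hb hmm
  have hL0 : 0 < L := by linarith
  have hb2 : b ^ 2 ≤ B ^ 2 * L := by
    have e1 := pow_le_pow_left₀ hb0.le hb 2
    rwa [mul_pow, Real.sq_sqrt hL0.le] at e1
  obtain ⟨h, hh⟩ : ∃ h, h = 2 * Real.pi * b / L := ⟨_, rfl⟩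
  have h0 : 0 < h := by rw [hh]; positivity
  have hhL : h * L = 2 * Real.pi * b := by rw [hh]; field_simp
  have hcond : h ^ 2 * L ≤ 4 * Real.pi ^ 2 * B ^ 2 := by
    have e1 : h ^ 2 * L = 4 * Real.pi ^ 2 * b ^ 2 / L := by rw [hh]; field_simp; ring
    rw [e1, div_le_iff₀ hL0]
    have e2 := mul_le_mul_of_nonneg_left hb2 (show 0 ≤ 4 * Real.pi ^ 2 by positivity)
    linarith
  have h3 : h ≤ 1 := by
    have e1 : h ^ 2 ≤ 1 := by
      by_contra hcon
      rw [not_le] at hcon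
      have e2 : L < h ^ 2 * L := by nlinarith
      have e3 : 4 * Real.pi ^ 2 * B ^ 2 ≤ (7 * B) ^ 2 := by
        have : 4 * Real.pi ^ 2 ≤ 49 := by nlinarith
        have := mul_le_mul_of_nonneg_right this (show 0 ≤ B ^ 2 by positivity)
        linarith
      linarith
    nlinarith
  have H := hmm h h0 (by linarith) hcond
  -- compare the integrals
  have hsub : ∫ a in (0:ℝ)..b, (QQ T (2 * Real.pi * a / L) : ℝ) =
      L / (2 * Real.pi) * ∫ k in (0:ℝ)..h, (QQ T k : ℝ) := by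
    have e1 : ∀ a : ℝ, (QQ T (2 * Real.pi * a / L) : ℝ) =
        (fun k => (QQ T k : ℝ)) ((2 * Real.pi / L) * a) := by
      intro a
      show (QQ T (2 * Real.pi * a / L) : ℝ) = QQ T ((2 * Real.pi / L) * a)
      congr 2
      ring
    simp_rw [e1]
    rw [intervalIntegral.integral_comp_mul_left (fun k => (QQ T k : ℝ))
      (c := 2 * Real.pi / L) (by positivity)]
    rw [mul_zero, smul_eq_mul, inv_div]
    congr 2
    rw [hh]; ring
  have hQ1 : ∫ k in (0:ℝ)..h, (QQ T k : ℝ) ≤ ∫ k in (0:ℝ)..h, (FF 0 T k : ℝ) := by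
    refine intervalIntegral.integral_mono_on h0.le (QQ_ii _ _ _) (FF_ii _ _ _ _) fun k hk => ?_
    exact_mod_cast (QQ_FF (by linarith [hk.2])).1
  have hQ2 : ∫ k in (0:ℝ)..h, (FF 0 T k : ℝ) ≤ (∫ k in (0:ℝ)..h, (QQ T k : ℝ)) + c0 := by
    have e1 : ∫ k in (0:ℝ)..h, (FF 0 T k : ℝ) ≤ ∫ k in (0:ℝ)..h, ((QQ T k : ℝ) + c0) := by
      refine intervalIntegral.integral_mono_on h0.le (FF_ii _ _ _ _)
        ((QQ_ii _ _ _).add intervalIntegrable_const) fun k hk => ?_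
      have := (QQ_FF (T := T) (h := k) (by linarith [hk.2])).2
      rw [hc0]
      exact_mod_cast this
    rw [intervalIntegral.integral_add (QQ_ii _ _ _) intervalIntegrable_const,
      intervalIntegral.integral_const, smul_eq_mul, sub_zero] at e1
    have e2 : h * c0 ≤ 1 * c0 := mul_le_mul_of_nonneg_right h3 hc00
    linarith
  rw [← hL, hsub]
  obtain ⟨I, hI⟩ : ∃ I, I = ∫ k in (0:ℝ)..h, (QQ T k : ℝ) := ⟨_, rfl⟩
  obtain ⟨J, hJ⟩ : ∃ J, J = ∫ k in (0:ℝ)..h, (FF 0 T k : ℝ) := ⟨_, rfl⟩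
  rw [← hI] at hQ1 hQ2 ⊢
  rw [← hJ] at hQ1 hQ2
  unfold GG MT at H
  rw [← hJ, ← hL, hhL] at H
  have e1 : 2 * Real.pi * b / (2 * Real.pi) = b := by field_simp
  rw [e1] at H
  have e2 : h ^ 2 * T * L ^ 2 / (4 * Real.pi ^ 2) = b ^ 2 * T := by
    have : h ^ 2 * T * L ^ 2 = (h * L) ^ 2 * T := by ring
    rw [this, hhL]; field_simp; ring
  rw [e2] at H
  unfold XX
  rw [← hL]
  have e3 : L / (2 * Real.pi) * I - (b ^ 2 / 2 * (T * L / (2 * Real.pi)) - b / 2 * (EE 0 T : ℝ) +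
      Real.log (1 + b) / (2 * Real.pi ^ 2) * (T * L / (2 * Real.pi))) =
      L / (4 * Real.pi) * ((h * (EE 0 T : ℝ) + 2 * J) -
        (b ^ 2 * T + T / Real.pi ^ 2 * Real.log (1 + b))) - L / (2 * Real.pi) * (J - I) := by
    have e4 : b / 2 * (EE 0 T : ℝ) = L / (4 * Real.pi) * (h * (EE 0 T : ℝ)) := by
      have : L / (4 * Real.pi) * (h * (EE 0 T : ℝ)) = (h * L) / (4 * Real.pi) * (EE 0 T : ℝ) := by
        ring
      rw [this, hhL]; field_simp; ring
    rw [e4]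
    field_simp
    ring
  rw [e3]
  have H' := abs_le.1 H
  have g1 : 0 ≤ J - I := by linarith
  have g2 : J - I ≤ c0 := by linarith
  have g3 : |L / (4 * Real.pi) * ((h * (EE 0 T : ℝ) + 2 * J) -
        (b ^ 2 * T + T / Real.pi ^ 2 * Real.log (1 + b)))| ≤ L / (4 * Real.pi) * (C * T) := by
    rw [abs_mul, abs_of_pos (by positivity : 0 < L / (4 * Real.pi))]
    exact mul_le_mul_of_nonneg_left H (by positivity)
  have g4 : L / (4 * Real.pi) * (C * T) ≤ C * (T * L / (2 * Real.pi)) := by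
    have : L / (4 * Real.pi) * (C * T) = C * (T * L / (2 * Real.pi)) / 2 := by field_simp; ring
    rw [this]
    have : 0 ≤ C * (T * L / (2 * Real.pi)) := by positivity
    linarith
  have g5 : L / (2 * Real.pi) * (J - I) ≤ c0 * (T * L / (2 * Real.pi)) := by
    have e5 : c0 * (T * L / (2 * Real.pi)) = L / (2 * Real.pi) * (c0 * T) := by ring
    rw [e5]
    refine mul_le_mul_of_nonneg_left ?_ (by positivity)
    nlinarith
  have g6 : 0 ≤ L / (2 * Real.pi) * (J - I) := by positivity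
  have g7 : 0 ≤ 7 * c0 * B ^ 2 * (T * L / (2 * Real.pi)) := by positivity
  have g3' := abs_le.1 g3
  rw [abs_le]
  constructor <;> nlinarith

end Pool.Agent.X127.CS
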