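import Pool.Agent.H336R2.V.ExistsLam

set_option autoImplicit false

/-! # The integral of the pair correlation function -/

namespace Pool.Agent.X127.CS

open Filter Topology MeasureTheory Set

/-- the pair correlation function -/
noncomputable def pcF (u : ℝ) : ℝ := 1 - (Real.sin (Real.pi * u) / (Real.pi * u)) ^ 2

lemma pcF_eq {u : ℝ} (hu : u ≠ 0) : pcF u = 1 - Real.sinc (Real.pi * u) ^ 2 := by
  unfold pcF
  rw [Real.sinc_of_ne_zero (mul_ne_zero Real.pi_ne_zero hu)]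

lemma sc_cont : Continuous (fun u : ℝ => Real.sinc (Real.pi * u) ^ 2) := by
  have := Real.continuous_sinc
  fun_prop

/-- the tail of the integral of `sinc²` -/
noncomputable def tl (a : ℝ) : ℝ := ∫ u in Ioi a, Real.sinc (Real.pi * u) ^ 2

lemma int_pcF {a : ℝ} (ha : 0 ≤ a) : ∫ u in (0:ℝ)..a, pcF u = a - 1 / 2 + tl a := by
  have h0 : ∫ u in (0:ℝ)..a, pcF u = ∫ u in (0:ℝ)..a, (1 - Real.sinc (Real.pi * u) ^ 2) := by
    apply intervalIntegral.integral_congr_ae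
    have : ∀ᵐ u : ℝ, u ≠ 0 := by
      simp [ae_iff, measure_singleton]
    filter_upwards [this] with u hu _
    exact pcF_eq hu
  rw [h0, intervalIntegral.integral_sub (by simp) (sc_cont.intervalIntegrable _ _)]
  have h1 : ∫ u in Ioi (0:ℝ), Real.sinc (Real.pi * u) ^ 2 =
      (∫ u in Ioc 0 a, Real.sinc (Real.pi * u) ^ 2) + tl a := by
    unfold tl
    rw [← Set.Ioc_union_Ioi_eq_Ioi ha]
    exact setIntegral_union (Set.Ioc_disjoint_Ioi le_rfl) measurableSet_Ioi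
      H336V.ExistsLam.sinc_sq_integrable.integrableOn
      H336V.ExistsLam.sinc_sq_integrable.integrableOn
  rw [H336V.ExistsLam.integral_sinc_sq, ← intervalIntegral.integral_of_le ha] at h1
  rw [intervalIntegral.integral_const, smul_eq_mul]
  linarith

lemma tl_nonneg (a : ℝ) : 0 ≤ tl a := by
  unfold tl
  exact setIntegral_nonneg measurableSet_Ioi fun u _ => sq_nonneg _

lemma tl_le {a : ℝ} (ha : 0 ≤ a) : tl a ≤ 1 / 2 := by
  unfold tl
  rw [← H336V.ExistsLam.integral_sinc_sq]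
  exact setIntegral_mono_set H336V.ExistsLam.sinc_sq_integrable.integrableOn
    (ae_of_all _ fun u => sq_nonneg _) (Ioi_subset_Ioi ha).eventuallyLE

lemma tl_anti : Antitone tl := by
  intro a b hab
  unfold tl
  exact setIntegral_mono_set H336V.ExistsLam.sinc_sq_integrable.integrableOn
    (ae_of_all _ fun u => sq_nonneg _) (Ioi_subset_Ioi hab).eventuallyLE

/-- the main part of the antiderivative -/
noncomputable def ph (u : ℝ) : ℝ :=
  -(1 / (2 * Real.pi ^ 2)) * u⁻¹ - 1 / (4 * Real.pi ^ 3) * (Real.sin (2 * Real.pi * u) * (u ^ 2)⁻¹)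

lemma ph_deriv {u : ℝ} (hu : 0 < u) : HasDerivAt ph (Real.sinc (Real.pi * u) ^ 2 +
    Real.sin (2 * Real.pi * u) / (2 * Real.pi ^ 3 * u ^ 3)) u := by
  have hpi := Real.pi_pos
  have h1 : HasDerivAt (fun u : ℝ => u⁻¹) (-(u ^ 2)⁻¹) u := hasDerivAt_inv hu.ne'
  have h2 : HasDerivAt (fun u : ℝ => Real.sin (2 * Real.pi * u))
      (Real.cos (2 * Real.pi * u) * (2 * Real.pi)) u := by
    have := ((hasDerivAt_id u).const_mul (2 * Real.pi)).sin
    simpa using this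
  have h3 : HasDerivAt (fun u : ℝ => (u ^ 2)⁻¹) (-(2 * u) / (u ^ 2) ^ 2) u := by
    have h5 : HasDerivAt (fun u : ℝ => (u ^ 2)⁻¹) (-(((2 : ℕ) : ℝ) * u ^ (2 - 1)) / (u ^ 2) ^ 2) u :=
      (hasDerivAt_pow 2 u).inv (by positivity)
    refine h5.congr_deriv ?_
    norm_num
  have h4 := (h1.const_mul (-(1 / (2 * Real.pi ^ 2)))).sub
    ((h2.mul h3).const_mul (1 / (4 * Real.pi ^ 3)))
  refine h4.congr_deriv ?_
  have hs : Real.sinc (Real.pi * u) ^ 2 =
      (1 - Real.cos (2 * Real.pi * u)) / (2 * Real.pi ^ 2 * u ^ 2) := by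
    rw [Real.sinc_of_ne_zero (mul_pos hpi hu).ne', div_pow, Real.sin_sq_eq_half_sub,
      show 2 * (Real.pi * u) = 2 * Real.pi * u by ring]
    field_simp
  rw [hs]
  field_simp
  ring

lemma ph_tendsto : Tendsto ph atTop (𝓝 0) := by
  have hpi := Real.pi_pos
  have h1 : Tendsto (fun u : ℝ => -(1 / (2 * Real.pi ^ 2)) * u⁻¹) atTop
      (𝓝 (-(1 / (2 * Real.pi ^ 2)) * 0)) := tendsto_inv_atTop_zero.const_mul _
  have h2 : Tendsto (fun u : ℝ => Real.sin (2 * Real.pi * u) * (u ^ 2)⁻¹) atTop (𝓝 0) := by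
    have h3 : Tendsto (fun u : ℝ => (u ^ 2)⁻¹) atTop (𝓝 0) :=
      (tendsto_pow_atTop (two_ne_zero)).inv_tendsto_atTop
    refine squeeze_zero_norm (fun u => ?_) h3
    rw [norm_mul, Real.norm_eq_abs, Real.norm_eq_abs, abs_of_nonneg (by positivity : 0 ≤ (u ^ 2)⁻¹)]
    calc |Real.sin (2 * Real.pi * u)| * (u ^ 2)⁻¹ ≤ 1 * (u ^ 2)⁻¹ :=
          mul_le_mul_of_nonneg_right (Real.abs_sin_le_one _) (by positivity)
      _ = (u ^ 2)⁻¹ := one_mul _
  have h3 : Tendsto ph atTop (𝓝 (-(1 / (2 * Real.pi ^ 2)) * 0 - 1 / (4 * Real.pi ^ 3) * 0)) :=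
    h1.sub (h2.const_mul (1 / (4 * Real.pi ^ 3)))
  rw [mul_zero, mul_zero, sub_zero] at h3
  exact h3

lemma rp3 {u : ℝ} (hu0 : 0 < u) : u ^ (-3 : ℝ) = (u ^ 3)⁻¹ := by
  rw [Real.rpow_neg hu0.le, ← Real.rpow_natCast]
  norm_num

lemma rp2 {u : ℝ} (hu0 : 0 < u) : u ^ (-2 : ℝ) = (u ^ 2)⁻¹ := by
  rw [Real.rpow_neg hu0.le, ← Real.rpow_natCast]
  norm_num

lemma err_pt {u : ℝ} (hu0 : 0 < u) :
    ‖Real.sin (2 * Real.pi * u) / (2 * Real.pi ^ 3 * u ^ 3)‖ ≤ u ^ (-3 : ℝ) := by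
  have hpi3 := Real.pi_gt_three
  rw [norm_div, Real.norm_eq_abs, Real.norm_eq_abs,
    abs_of_pos (by positivity : 0 < 2 * Real.pi ^ 3 * u ^ 3), rp3 hu0, div_le_iff₀ (by positivity)]
  have e1 : (u ^ 3)⁻¹ * (2 * Real.pi ^ 3 * u ^ 3) = 2 * Real.pi ^ 3 := by field_simp
  rw [e1]
  have e2 : 1 ≤ 2 * Real.pi ^ 3 := by
    have : (1 : ℝ) ≤ Real.pi ^ 3 := one_le_pow₀ (by linarith)
    linarith
  exact (Real.abs_sin_le_one _).trans e2

lemma cube_int {a : ℝ} (ha : 0 < a) : IntegrableOn (fun u : ℝ => u ^ (-3 : ℝ)) (Ioi a) :=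
  integrableOn_Ioi_rpow_of_lt (by norm_num) ha

lemma err_int {a : ℝ} (ha : 0 < a) : IntegrableOn (fun u : ℝ =>
    Real.sin (2 * Real.pi * u) / (2 * Real.pi ^ 3 * u ^ 3)) (Ioi a) := by
  have hpi3 := Real.pi_gt_three
  refine Integrable.mono' (cube_int ha) ?_ ?_
  · exact (by fun_prop : Measurable fun u : ℝ =>
      Real.sin (2 * Real.pi * u) / (2 * Real.pi ^ 3 * u ^ 3)).aestronglyMeasurable
  · exact (ae_restrict_iff' measurableSet_Ioi).2 (ae_of_all _ fun u hu => err_pt (ha.trans hu))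

lemma err_le {a : ℝ} (ha : 0 < a) : |∫ u in Ioi a,
    Real.sin (2 * Real.pi * u) / (2 * Real.pi ^ 3 * u ^ 3)| ≤ (a ^ 2)⁻¹ := by
  have hpi3 := Real.pi_gt_three
  have h1 : ‖∫ u in Ioi a, Real.sin (2 * Real.pi * u) / (2 * Real.pi ^ 3 * u ^ 3)‖ ≤
      ∫ u in Ioi a, u ^ (-3 : ℝ) := by
    refine norm_integral_le_of_norm_le (cube_int ha) ?_
    exact (ae_restrict_iff' measurableSet_Ioi).2 (ae_of_all _ fun u hu => err_pt (ha.trans hu))
  rw [integral_Ioi_rpow_of_lt (by norm_num) ha] at h1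
  rw [← Real.norm_eq_abs]
  refine h1.trans ?_
  have e3 : (-3 : ℝ) + 1 = -2 := by norm_num
  rw [e3, rp2 ha]
  have : 0 < (a ^ 2)⁻¹ := by positivity
  linarith

lemma tl_asymp {a : ℝ} (ha : 0 < a) : |tl a - 1 / (2 * Real.pi ^ 2) * a⁻¹| ≤ 2 * (a ^ 2)⁻¹ := by
  have hpi := Real.pi_pos
  have hpi3 := Real.pi_gt_three
  have hI : IntegrableOn (fun u : ℝ => Real.sinc (Real.pi * u) ^ 2) (Ioi a) :=
    H336V.ExistsLam.sinc_sq_integrable.integrableOn
  have h1 := integral_Ioi_of_hasDerivAt_of_tendsto'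
    (fun u (hu : u ∈ Ici a) => ph_deriv (ha.trans_le hu)) (hI.add (err_int ha)) ph_tendsto
  have h2 : ∫ u in Ioi a, (Real.sinc (Real.pi * u) ^ 2 +
      Real.sin (2 * Real.pi * u) / (2 * Real.pi ^ 3 * u ^ 3)) =
      tl a + ∫ u in Ioi a, Real.sin (2 * Real.pi * u) / (2 * Real.pi ^ 3 * u ^ 3) :=
    integral_add hI (err_int ha)
  have h3 : tl a + ∫ u in Ioi a, Real.sin (2 * Real.pi * u) / (2 * Real.pi ^ 3 * u ^ 3) =
      0 - ph a := h2.symm.trans h1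
  have h4 := err_le ha
  have h5 : |1 / (4 * Real.pi ^ 3) * (Real.sin (2 * Real.pi * a) * (a ^ 2)⁻¹)| ≤ (a ^ 2)⁻¹ := by
    rw [abs_mul, abs_mul, abs_of_pos (by positivity : 0 < 1 / (4 * Real.pi ^ 3)),
      abs_of_pos (by positivity : 0 < (a ^ 2)⁻¹)]
    have e1 : 1 / (4 * Real.pi ^ 3) ≤ 1 := by
      rw [div_le_one (by positivity)]
      have : (1 : ℝ) ≤ Real.pi ^ 3 := one_le_pow₀ (by linarith)
      linarith
    have e2 := Real.abs_sin_le_one (2 * Real.pi * a)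
    have e3 : |Real.sin (2 * Real.pi * a)| * (a ^ 2)⁻¹ ≤ 1 * (a ^ 2)⁻¹ :=
      mul_le_mul_of_nonneg_right e2 (by positivity)
    calc _ ≤ 1 * (|Real.sin (2 * Real.pi * a)| * (a ^ 2)⁻¹) :=
          mul_le_mul_of_nonneg_right e1 (by positivity)
      _ ≤ _ := by linarith
  have e4 : tl a - 1 / (2 * Real.pi ^ 2) * a⁻¹ =
      1 / (4 * Real.pi ^ 3) * (Real.sin (2 * Real.pi * a) * (a ^ 2)⁻¹) -
      ∫ u in Ioi a, Real.sin (2 * Real.pi * u) / (2 * Real.pi ^ 3 * u ^ 3) := by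
    unfold ph at h3
    linarith
  rw [e4]
  refine (abs_sub _ _).trans ?_
  linarith

lemma tl_all {a : ℝ} (ha : 0 ≤ a) :
    |tl a - 1 / (2 * Real.pi ^ 2) * (1 + a)⁻¹| ≤ 12 * ((1 + a) ^ 2)⁻¹ := by
  have hpi := Real.pi_pos
  have hpi3 := Real.pi_gt_three
  have hk : 1 / (2 * Real.pi ^ 2) ≤ 1 := by
    rw [div_le_one (by positivity)]
    nlinarith
  have hk0 : 0 < 1 / (2 * Real.pi ^ 2) := by positivity
  rcases le_total a 1 with h | h
  · have h1 := tl_nonneg a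
    have h2 := tl_le ha
    have h3 : (1 + a)⁻¹ ≤ 1 := inv_le_one_of_one_le₀ (by linarith)
    have h4 : 0 < (1 + a)⁻¹ := by positivity
    have h5 : (1 : ℝ) / 4 ≤ ((1 + a) ^ 2)⁻¹ := by
      rw [← one_div, div_le_div_iff₀ (by norm_num) (by positivity)]
      nlinarith
    have h6 : 1 / (2 * Real.pi ^ 2) * (1 + a)⁻¹ ≤ 1 * 1 := mul_le_mul hk h3 h4.le zero_le_one
    have h7 : 0 ≤ 1 / (2 * Real.pi ^ 2) * (1 + a)⁻¹ := by positivity
    rw [abs_le]
    constructor <;> linarith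
  · have h1 := tl_asymp (a := a) (by linarith)
    have h2 : a⁻¹ - (1 + a)⁻¹ = (a * (1 + a))⁻¹ := by field_simp; ring
    have h3 : (a * (1 + a))⁻¹ ≤ 2 * ((1 + a) ^ 2)⁻¹ := by
      rw [← div_eq_mul_inv, ← one_div, div_le_div_iff₀ (by positivity) (by positivity)]
      nlinarith
    have h4 : 0 < (a * (1 + a))⁻¹ := by positivity
    have h5 : (a ^ 2)⁻¹ ≤ 4 * ((1 + a) ^ 2)⁻¹ := by
      rw [← div_eq_mul_inv, ← one_div, div_le_div_iff₀ (by positivity) (by positivity)]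
      nlinarith
    have h6 : 1 / (2 * Real.pi ^ 2) * a⁻¹ - 1 / (2 * Real.pi ^ 2) * (1 + a)⁻¹ =
        1 / (2 * Real.pi ^ 2) * (a * (1 + a))⁻¹ := by rw [← mul_sub, h2]
    have h7 : 1 / (2 * Real.pi ^ 2) * (a * (1 + a))⁻¹ ≤ 1 * (a * (1 + a))⁻¹ :=
      mul_le_mul_of_nonneg_right hk h4.le
    have h8 : 0 ≤ 1 / (2 * Real.pi ^ 2) * (a * (1 + a))⁻¹ := by positivity
    have h9 : 0 < ((1 + a) ^ 2)⁻¹ := by positivity
    have h1' := abs_le.1 h1
    rw [abs_le]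
    constructor <;> linarith

/-- `∫_0^b ∫_0^a F` -/
theorem gue {b : ℝ} (hb : 0 ≤ b) : |(∫ a in (0:ℝ)..b, ∫ u in (0:ℝ)..a, pcF u) -
    (b ^ 2 / 2 - b / 2 + Real.log (1 + b) / (2 * Real.pi ^ 2))| ≤ 12 := by
  have hpi := Real.pi_pos
  have e1 : ∫ a in (0:ℝ)..b, ∫ u in (0:ℝ)..a, pcF u =
      ∫ a in (0:ℝ)..b, ((a - 1 / 2 + 1 / (2 * Real.pi ^ 2) * (1 + a)⁻¹) +
        (tl a - 1 / (2 * Real.pi ^ 2) * (1 + a)⁻¹)) := by
    refine intervalIntegral.integral_congr fun a ha => ?_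
    rw [uIcc_of_le hb] at ha
    show ∫ u in (0:ℝ)..a, pcF u = _
    rw [int_pcF ha.1]
    ring
  have hd : ∀ a ∈ uIcc 0 b, HasDerivAt (fun a : ℝ => a ^ 2 / 2 - a / 2 +
      1 / (2 * Real.pi ^ 2) * Real.log (1 + a))
      (a - 1 / 2 + 1 / (2 * Real.pi ^ 2) * (1 + a)⁻¹) a := by
    intro a ha
    rw [uIcc_of_le hb] at ha
    have h1 : HasDerivAt (fun a : ℝ => a ^ 2 / 2) a a := by
      have := (hasDerivAt_pow 2 a).div_const 2
      refine this.congr_deriv ?_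
      simp
    have h2 : HasDerivAt (fun a : ℝ => a / 2) (1 / 2) a := (hasDerivAt_id a).div_const 2
    have h3 : HasDerivAt (fun a : ℝ => Real.log (1 + a)) ((1 + a)⁻¹) a := by
      have := ((hasDerivAt_id a).const_add 1).log (by simp; linarith [ha.1])
      refine this.congr_deriv ?_
      simp
    exact (h1.sub h2).add (h3.const_mul _)
  have hc : ContinuousOn (fun a : ℝ => a - 1 / 2 + 1 / (2 * Real.pi ^ 2) * (1 + a)⁻¹)
      (uIcc 0 b) := by
    rw [uIcc_of_le hb]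
    refine ContinuousOn.add (by fun_prop) (ContinuousOn.mul (by fun_prop) ?_)
    refine ContinuousOn.inv₀ (by fun_prop) fun a ha => ?_
    have := ha.1
    positivity
  have hi1 := hc.intervalIntegrable (μ := volume)
  have e2 := intervalIntegral.integral_eq_sub_of_hasDerivAt hd hi1
  have hi2 : IntervalIntegrable (fun a : ℝ => tl a - 1 / (2 * Real.pi ^ 2) * (1 + a)⁻¹)
      volume 0 b := by
    refine (tl_anti.intervalIntegrable).sub ?_
    have hc2 : ContinuousOn (fun a : ℝ => 1 / (2 * Real.pi ^ 2) * (1 + a)⁻¹) (uIcc 0 b) := by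
      rw [uIcc_of_le hb]
      refine ContinuousOn.mul (by fun_prop) ?_
      refine ContinuousOn.inv₀ (by fun_prop) fun a ha => ?_
      have := ha.1
      positivity
    exact hc2.intervalIntegrable
  rw [e1, intervalIntegral.integral_add hi1 hi2, e2]
  have e3 : ∀ I : ℝ, b ^ 2 / 2 - b / 2 + 1 / (2 * Real.pi ^ 2) * Real.log (1 + b) -
      ((0:ℝ) ^ 2 / 2 - 0 / 2 + 1 / (2 * Real.pi ^ 2) * Real.log (1 + 0)) + I -
      (b ^ 2 / 2 - b / 2 + Real.log (1 + b) / (2 * Real.pi ^ 2)) = I := by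
    intro I
    simp
    ring
  rw [e3]
  -- the error term
  have hd3 : ∀ a ∈ uIcc 0 b, HasDerivAt (fun a : ℝ => -12 * (1 + a)⁻¹)
      (12 * ((1 + a) ^ 2)⁻¹) a := by
    intro a ha
    rw [uIcc_of_le hb] at ha
    have h1 : HasDerivAt (fun a : ℝ => (1 + a)⁻¹) (-1 / (1 + a) ^ 2) a :=
      ((hasDerivAt_id a).const_add 1).inv (by simp; linarith [ha.1])
    have := h1.const_mul (-12)
    refine this.congr_deriv ?_
    field_simp
  have hc3 : ContinuousOn (fun a : ℝ => 12 * ((1 + a) ^ 2)⁻¹) (uIcc 0 b) := by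
    rw [uIcc_of_le hb]
    refine ContinuousOn.mul (by fun_prop) ?_
    refine ContinuousOn.inv₀ (by fun_prop) fun a ha => ?_
    have := ha.1
    positivity
  have e4 := intervalIntegral.integral_eq_sub_of_hasDerivAt hd3 (hc3.intervalIntegrable (μ := volume))
  have h5 : |∫ a in (0:ℝ)..b, (tl a - 1 / (2 * Real.pi ^ 2) * (1 + a)⁻¹)| ≤
      ∫ a in (0:ℝ)..b, 12 * ((1 + a) ^ 2)⁻¹ := by
    have := intervalIntegral.norm_integral_le_of_norm_le (f := fun a : ℝ =>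
      tl a - 1 / (2 * Real.pi ^ 2) * (1 + a)⁻¹) (g := fun a : ℝ => 12 * ((1 + a) ^ 2)⁻¹) (μ := volume)
      (a := 0) (b := b) hb (ae_of_all _ fun a ha => by
        rw [Real.norm_eq_abs]; exact tl_all ha.1.le) hc3.intervalIntegrable
    rwa [Real.norm_eq_abs] at this
  refine h5.trans ?_
  rw [e4]
  have h6 : 0 ≤ (1 + b)⁻¹ := by positivity
  simp
  linarith

end Pool.Agent.X127.CS
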