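import Pool.Agent.X127.CS.Sum

set_option autoImplicit false

/-! # A lower bound for the number of pairs with equal ordinates -/

namespace Pool.Agent.X127.CS

open Filter Topology MeasureTheory Set
open H370 (Zf mult mem_Zf good_zeta NN NN_eq zset)
open Pool.Agent.TH850.UV (NS mS mS_nonneg cnt cnt_eq cnt_crude nv2)
open Pool.Agent.X113.PG
open Pool.Agent.X113.PC

lemma mS_one {U : ℝ} (hU : 100 ≤ U) {s : ℂ} (hs : s ∈ SU U) : 1 ≤ mS s := by
  unfold SU at hs
  rw [mem_Zf good_zeta (by linarith)] at hs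
  obtain ⟨h1, h2, h3, h4, h5⟩ := hs
  have h6 : 1 ≤ mult riemannZeta s := H370.Loc.mult_pos' good_zeta (by linarith) h5
  show (1 : ℝ) ≤ (analyticOrderNatAt riemannZeta s : ℝ)
  exact_mod_cast h6

lemma cc_le_dg {U : ℝ} (hU : 100 ≤ U) : cc U U U ≤ dg (SU U) mS Complex.im U (2 * U) := by
  show cn (SU U) mS Complex.im U U ≤ _
  unfold cn dg
  refine Finset.sum_le_sum fun s hs => ?_
  have h0 : ∀ s' ∈ SU U, 0 ≤ mS s * mS s' *
      (if U < s.im ∧ s.im ≤ 2 * U ∧ s.im = s'.im then (1 : ℝ) else 0) := fun s' _ =>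
    mul_nonneg (mul_nonneg (mS_nonneg s) (mS_nonneg s')) (ite01 _)
  refine le_trans ?_ (Finset.single_le_sum h0 hs)
  by_cases c : U < s.im ∧ s.im ≤ 2 * U
  · rw [if_pos ⟨c.1, by linarith [c.2]⟩, if_pos ⟨c.1, c.2, rfl⟩, mul_one, mul_one]
    have := mS_one hU hs
    nlinarith
  · rw [if_neg (fun z => c ⟨z.1, by linarith [z.2]⟩), mul_zero]
    exact h0 s hs

/-- a lower bound for the number of pairs with equal ordinates -/
theorem EE_low : ∃ C T0 : ℝ, 0 < C ∧ 100 ≤ T0 ∧ ∀ T : ℝ, T0 ≤ T →
    T * Real.log T / (2 * Real.pi) - C * T ≤ (EE 0 T : ℝ) := by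
  obtain ⟨C, T0, hC, hT0, hb⟩ := facts 1 le_rfl
  have hpi := Real.pi_pos
  have hpi3 := Real.pi_gt_three
  obtain ⟨L2, hL2⟩ : ∃ L2, L2 = Real.log (2 * T0) := ⟨_, rfl⟩
  have hL20 : 0 < L2 := by rw [hL2]; exact Real.log_pos (by linarith)
  obtain ⟨C', hC'⟩ : ∃ C', C' = C + L2 + 1 := ⟨_, rfl⟩
  have key : ∀ k : ℕ, ∀ T : ℝ, T0 ≤ T → T ≤ 2 ^ (k + 1) * T0 →
      T * Real.log T / (2 * Real.pi) - C' * T ≤ (EE 0 T : ℝ) := by
    intro k
    induction k with
    | zero =>
      intro T h1 h2
      have hT : 0 < T := by linarith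
      have h2' : T ≤ 2 * T0 := by simpa using h2
      have hLT : Real.log T ≤ L2 := by rw [hL2]; exact Real.log_le_log hT h2'
      have hLp : 0 < Real.log T := Real.log_pos (by linarith)
      have g1 : T * Real.log T / (2 * Real.pi) ≤ T * Real.log T :=
        div_le_self (by positivity) (by linarith)
      have g2 : T * Real.log T ≤ T * L2 := mul_le_mul_of_nonneg_left hLT hT.le
      have g3 : (0 : ℝ) ≤ EE 0 T := Nat.cast_nonneg _
      have g4 : 0 ≤ (C + 1) * T := by positivity
      rw [hC']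
      linarith
    | succ k ih =>
      intro T h1 h2
      rcases le_or_gt T (2 ^ (k + 1) * T0) with h3 | h3
      · exact ih T h1 h3
      · obtain ⟨V, hV⟩ : ∃ V, V = T / 2 := ⟨_, rfl⟩
        have hTV : T = 2 * V := by rw [hV]; ring
        have hV1 : T0 ≤ V := by
          have : (2 : ℝ) ≤ 2 ^ (k + 1) := by
            calc (2 : ℝ) = 2 ^ 1 := by norm_num
              _ ≤ _ := pow_le_pow_right₀ (by norm_num) (by omega)
          nlinarith
        have hV2 : V ≤ 2 ^ (k + 1) * T0 := by
          rw [hV, div_le_iff₀ two_pos]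
          calc T ≤ 2 ^ (k + 1 + 1) * T0 := h2
            _ = _ := by ring
        have hV0 : 0 < V := by linarith
        obtain ⟨-, -, -, -, f5, -⟩ := hb V hV1
        have i1 := ih V hV1 hV2
        have i2 := cc_le_dg (U := V) (by linarith)
        rw [← EE_dg (by linarith)] at i2
        have i3 : (EE 0 T : ℝ) = EE 0 V + EE V (2 * V) := by
          rw [hTV, EE_add hV0.le (by linarith)]
          push_cast
          rfl
        have f5' := (abs_le.1 f5).1
        have hlog : Real.log T = Real.log 2 + Real.log V := by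
          rw [hTV]; exact Real.log_mul (by norm_num) hV0.ne'
        have hl1 : Real.log 2 ≤ 7 / 10 := by have := Real.log_two_lt_d9; linarith
        have e1 : T * Real.log T / (2 * Real.pi) =
            2 * (V * Real.log V / (2 * Real.pi)) + V * Real.log 2 / Real.pi := by
          rw [hlog, hTV]; field_simp; ring
        have e2 : V * Real.log 2 / Real.pi ≤ V := by
          rw [div_le_iff₀ hpi]
          nlinarith
        rw [i3, e1, hTV]
        have e3 : C' * (2 * V) = C' * V + C' * V := by ring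
        have e4 : C' * V = C * V + L2 * V + V := by rw [hC']; ring
        have e5 : 0 ≤ L2 * V := by positivity
        linarith
  refine ⟨C', T0, by rw [hC']; linarith, hT0, fun T hT => ?_⟩
  obtain ⟨k, hk⟩ := pow_unbounded_of_one_lt (T / T0) (by norm_num : (1 : ℝ) < 2)
  refine key k T hT ?_
  rw [div_lt_iff₀ (by linarith)] at hk
  have : (2 : ℝ) ^ k * T0 ≤ 2 ^ (k + 1) * T0 := by
    rw [pow_succ]
    have : (0 : ℝ) < 2 ^ k * T0 := by positivity
    linarith
  linarith

end Pool.Agent.X127.CS
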