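import Pool.Agent.X127.CS.Fin
import Pool.Agent.X127.CS.Gue

set_option autoImplicit false

/-! # Windows with moving end points -/

namespace Pool.Agent.X127.CS

open Filter Topology MeasureTheory Set
open Pool.Agent.X113.PC (ZZ ZZ_fin FF)

/-- the zeros with ordinates in `(0, T]` -/
def zr (T : ℝ) : Set ℂ :=
  {s : ℂ | riemannZeta s = 0 ∧ 0 < s.re ∧ s.re < 1 ∧ 0 < s.im ∧ s.im ≤ T}

lemma zr_fin (T : ℝ) : (zr T).Finite :=
  (ZZ_fin 0 T).subset fun _ hs => ⟨⟨hs.1, hs.2.1, hs.2.2.1⟩, hs.2.2.2.1.le, hs.2.2.2.2⟩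

/-- the multiplicity -/
noncomputable def ml (s : ℂ) : ℕ := analyticOrderNatAt riemannZeta s

/-- sums over pairs of zeros -/
noncomputable def ps (T : ℝ) (P : ℂ → ℂ → Prop) [∀ s s', Decidable (P s s')] : ℕ :=
  ∑ s ∈ (zr_fin T).toFinset, ∑ s' ∈ (zr_fin T).toFinset, if P s s' then ml s * ml s' else 0

lemma ps_finsum (T : ℝ) (P : ℂ → ℂ → Prop) [∀ s s', Decidable (P s s')] :
    ∑ᶠ s ∈ zr T, ∑ᶠ s' ∈ {s' : ℂ | s' ∈ zr T ∧ P s s'}, ml s * ml s' = ps T P := by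
  classical
  rw [finsum_mem_eq_finite_toFinset_sum _ (zr_fin T)]
  unfold ps
  refine Finset.sum_congr rfl fun s _ => ?_
  have hfin : {s' : ℂ | s' ∈ zr T ∧ P s s'}.Finite := (zr_fin T).subset fun _ h => h.1
  rw [finsum_mem_eq_finite_toFinset_sum _ hfin, ← Finset.sum_filter]
  congr 1
  ext s'
  simp

lemma ps_pair (T : ℝ) (P : ℂ → ℂ → Prop) [∀ s s', Decidable (P s s')] :
    ∑ᶠ p ∈ {p : ℂ × ℂ | p.1 ∈ zr T ∧ p.2 ∈ zr T ∧ P p.1 p.2}, ml p.1 * ml p.2 = ps T P := by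
  classical
  have hfin : {p : ℂ × ℂ | p.1 ∈ zr T ∧ p.2 ∈ zr T ∧ P p.1 p.2}.Finite :=
    ((zr_fin T).prod (zr_fin T)).subset fun _ h => ⟨h.1, h.2.1⟩
  rw [finsum_mem_eq_finite_toFinset_sum _ hfin]
  unfold ps
  rw [← Finset.sum_product', ← Finset.sum_filter]
  congr 1
  ext p
  simp [and_assoc]

/-- the pairs with `0 < γ - γ' ≤ 2 π b / log T` -/
lemma QQ_eq {T : ℝ} (hT : 1 < T) (b : ℝ) : QQ T (2 * Real.pi * b / Real.log T) =
    ps T (fun s s' => 0 < (s.im - s'.im) * Real.log T / (2 * Real.pi) ∧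
      (s.im - s'.im) * Real.log T / (2 * Real.pi) ≤ b) := by
  classical
  have hL := Real.log_pos hT
  have hpi := Real.pi_pos
  rw [← ps_pair]
  unfold QQ
  have e : QSt T (2 * Real.pi * b / Real.log T) = {p : ℂ × ℂ | p.1 ∈ zr T ∧ p.2 ∈ zr T ∧
      (0 < (p.1.im - p.2.im) * Real.log T / (2 * Real.pi) ∧
      (p.1.im - p.2.im) * Real.log T / (2 * Real.pi) ≤ b)} := by
    ext p
    have k1 : 0 < (p.1.im - p.2.im) * Real.log T / (2 * Real.pi) ↔ 0 < p.1.im - p.2.im := by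
      constructor
      · intro h
        by_contra hc
        rw [not_lt] at hc
        have : (p.1.im - p.2.im) * Real.log T / (2 * Real.pi) ≤ 0 :=
          div_nonpos_of_nonpos_of_nonneg (mul_nonpos_of_nonpos_of_nonneg hc hL.le) (by positivity)
        linarith
      · intro h
        positivity
    have k2 : (p.1.im - p.2.im) * Real.log T / (2 * Real.pi) ≤ b ↔
        p.1.im - p.2.im ≤ 2 * Real.pi * b / Real.log T := by
      rw [div_le_iff₀ (by positivity), le_div_iff₀ hL, mul_comm b]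
    constructor
    · rintro ⟨a1, a2, a3, a4, a5, a6, a7⟩
      exact ⟨⟨a1.1, a1.2.1, a1.2.2, a3, a4⟩, ⟨a2.1, a2.2.1, a2.2.2, a5, by linarith⟩,
        k1.2 a6, k2.2 a7⟩
    · rintro ⟨a1, a2, a3, a4⟩
      exact ⟨⟨a1.1, a1.2.1, a1.2.2.1⟩, ⟨a2.1, a2.2.1, a2.2.2.1⟩, a1.2.2.2.1, a1.2.2.2.2,
        a2.2.2.2.1, k1.1 a3, k2.1 a4⟩
  rw [e]
  rfl

lemma EE_eq (T : ℝ) : EE 0 T = ps T (fun s s' => s.im = s'.im) := by
  classical
  rw [← ps_pair]
  unfold EE
  have e : ESt 0 T = {p : ℂ × ℂ | p.1 ∈ zr T ∧ p.2 ∈ zr T ∧ p.1.im = p.2.im} := by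
    ext p
    constructor
    · rintro ⟨a1, a2, a3, a4, a5⟩
      exact ⟨⟨a1.1, a1.2.1, a1.2.2, a3, a4⟩, ⟨a2.1, a2.2.1, a2.2.2, by rw [← a5]; exact a3,
        by rw [← a5]; exact a4⟩, a5⟩
    · rintro ⟨a1, a2, a3⟩
      exact ⟨⟨a1.1, a1.2.1, a1.2.2.1⟩, ⟨a2.1, a2.2.1, a2.2.2.1⟩, a1.2.2.2.1, a1.2.2.2.2, a3⟩
  rw [e]
  rfl

/-- the number of pairs in a closed window is, for almost every position, a difference -/
lemma win_ae (T β : ℝ) (hβ : 0 ≤ β) : ∀ᵐ α : ℝ, 0 < α →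
    (ps T (fun s s' => α ≤ (s.im - s'.im) * Real.log T / (2 * Real.pi) ∧
      (s.im - s'.im) * Real.log T / (2 * Real.pi) ≤ α + β) : ℝ) =
    (ps T (fun s s' => 0 < (s.im - s'.im) * Real.log T / (2 * Real.pi) ∧
      (s.im - s'.im) * Real.log T / (2 * Real.pi) ≤ α + β) : ℝ) -
    (ps T (fun s s' => 0 < (s.im - s'.im) * Real.log T / (2 * Real.pi) ∧
      (s.im - s'.im) * Real.log T / (2 * Real.pi) ≤ α) : ℝ) := by
  classical
  set E : Finset ℝ := ((zr_fin T).toFinset ×ˢ (zr_fin T).toFinset).image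
    (fun p : ℂ × ℂ => (p.1.im - p.2.im) * Real.log T / (2 * Real.pi)) with hE
  have h1 : ∀ᵐ α : ℝ, α ∉ (E : Set ℝ) := by
    rw [ae_iff]
    simp only [not_not]
    exact (E.finite_toSet).measure_zero _
  filter_upwards [h1] with α hα hα0
  unfold ps
  push_cast
  rw [← Finset.sum_sub_distrib]
  refine Finset.sum_congr rfl fun s hs => ?_
  rw [← Finset.sum_sub_distrib]
  refine Finset.sum_congr rfl fun s' hs' => ?_
  have hne : (s.im - s'.im) * Real.log T / (2 * Real.pi) ≠ α := by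
    intro h
    apply hα
    rw [hE, Finset.mem_coe, Finset.mem_image]
    exact ⟨(s, s'), Finset.mem_product.2 ⟨hs, hs'⟩, h⟩
  set d := (s.im - s'.im) * Real.log T / (2 * Real.pi)
  rcases lt_or_gt_of_ne hne with c | c
  · rw [if_neg (fun z => by linarith [z.1])]
    by_cases c1 : 0 < d
    · rw [if_pos ⟨c1, by linarith⟩, if_pos ⟨c1, c.le⟩]
      simp
    · rw [if_neg (fun z => c1 z.1), if_neg (fun z => c1 z.1)]
      simp
  · by_cases c2 : d ≤ α + β
    · rw [if_pos ⟨c.le, c2⟩, if_pos ⟨by linarith, c2⟩, if_neg (fun z => by linarith [z.2])]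
      simp
    · rw [if_neg (fun z => c2 z.2), if_neg (fun z => c2 z.2), if_neg (fun z => by linarith [z.2])]
      simp

lemma pcF_bdd (u : ℝ) : |pcF u| ≤ 1 := by
  unfold pcF
  have h1 : |Real.sin (Real.pi * u) / (Real.pi * u)| ≤ 1 := by
    rcases eq_or_ne (Real.pi * u) 0 with h | h
    · rw [h]; simp
    · rw [abs_div, div_le_one (abs_pos.2 h)]
      exact Real.abs_sin_le_abs
  have h2 := sq_abs (Real.sin (Real.pi * u) / (Real.pi * u))
  have h3 : |Real.sin (Real.pi * u) / (Real.pi * u)| ^ 2 ≤ 1 ^ 2 :=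
    pow_le_pow_left₀ (abs_nonneg _) h1 2
  have h4 : 0 ≤ (Real.sin (Real.pi * u) / (Real.pi * u)) ^ 2 := sq_nonneg _
  rw [abs_le]
  constructor <;> linarith

lemma pcF_ii (a b : ℝ) : IntervalIntegrable pcF volume a b := by
  refine Pool.Agent.X113.PG.bdd_ii (M := 1) ?_ pcF_bdd a b
  unfold pcF
  fun_prop

/-- the double integral -/
noncomputable def GF (b : ℝ) : ℝ := ∫ a in (0:ℝ)..b, ∫ u in (0:ℝ)..a, pcF u

lemma inner_cont : Continuous fun a : ℝ => ∫ u in (0:ℝ)..a, pcF u :=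
  intervalIntegral.continuous_primitive (fun a b => pcF_ii a b) 0

/-- the same four-term identity for a shifted primitive -/
lemma shift_int {f : ℝ → ℝ} (hf : ∀ a b : ℝ, IntervalIntegrable f volume a b) (A A' β : ℝ) :
    ∫ α in A..A', (f (α + β) - f α) =
      (∫ a in (0:ℝ)..(A' + β), f a) - (∫ a in (0:ℝ)..(A + β), f a) -
      (∫ a in (0:ℝ)..A', f a) + ∫ a in (0:ℝ)..A, f a := by
  have h1 : IntervalIntegrable (fun α => f (α + β)) volume A A' := by
    have := (hf (A + β) (A' + β)).comp_add_right β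
    simpa using this
  rw [intervalIntegral.integral_sub h1 (hf _ _),
    intervalIntegral.integral_comp_add_right (fun a => f a) β]
  have h2 := intervalIntegral.integral_add_adjacent_intervals (hf 0 (A + β)) (hf (A + β) (A' + β))
  have h3 := intervalIntegral.integral_add_adjacent_intervals (hf 0 A) (hf A A')
  linarith

end Pool.Agent.X127.CS
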