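import Pool.Agent.X127.CS.Blk

set_option autoImplicit false

/-! # The integral of the pair counts of the zeros of zeta: up to height `T` -/

namespace Pool.Agent.X127.CS

open Filter Topology MeasureTheory Set
open H370 (Zf mult mem_Zf good_zeta NN NN_eq zset)
open Pool.Agent.TH850.UV (NS mS mS_nonneg cnt cnt_eq cnt_crude nv2)
open Pool.Agent.X113.PG
open Pool.Agent.X113.PC

/-- the pairs of zeros with equal ordinates in `(A, T]` -/
def ESt (A T : ℝ) : Set (ℂ × ℂ) := {p : ℂ × ℂ | p.1 ∈ ZZ ∧ p.2 ∈ ZZ ∧ A < p.1.im ∧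
  p.1.im ≤ T ∧ p.1.im = p.2.im}

/-- the number of pairs of zeros with equal ordinates in `(A, T]` -/
noncomputable def EE (A T : ℝ) : ℕ := ∑ᶠ p ∈ ESt A T,
  analyticOrderNatAt riemannZeta p.1 * analyticOrderNatAt riemannZeta p.2

lemma ESt_fin (A T : ℝ) : (ESt A T).Finite := by
  refine ((ZZ_fin A T).prod (ZZ_fin A T)).subset ?_
  rintro p ⟨h1, h2, h3, h4, h5⟩
  exact ⟨⟨h1, h3.le, h4⟩, ⟨h2, by rw [← h5]; exact h3.le, by rw [← h5]; exact h4⟩⟩

lemma EE_mono {A T T' : ℝ} (h1 : T ≤ T') : EE A T ≤ EE A T' := by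
  unfold EE
  rw [finsum_mem_eq_finite_toFinset_sum _ (ESt_fin A T),
    finsum_mem_eq_finite_toFinset_sum _ (ESt_fin A T')]
  refine Finset.sum_le_sum_of_subset_of_nonneg ?_ fun _ _ _ => Nat.zero_le _
  intro p hp
  rw [Set.Finite.mem_toFinset] at hp ⊢
  obtain ⟨a1, a2, a3, a4, a5⟩ := hp
  exact ⟨a1, a2, a3, by linarith, a5⟩

lemma EE_add {A B C : ℝ} (h1 : A ≤ B) (h2 : B ≤ C) : EE A C = EE A B + EE B C := by
  unfold EE
  rw [← finsum_mem_union ?_ (ESt_fin A B) (ESt_fin B C)]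
  · have : ESt A C = ESt A B ∪ ESt B C := by
      ext p
      constructor
      · rintro ⟨a1, a2, a3, a4, a5⟩
        rcases le_or_gt p.1.im B with g | g
        · exact Or.inl ⟨a1, a2, a3, g, a5⟩
        · exact Or.inr ⟨a1, a2, g, a4, a5⟩
      · rintro (⟨a1, a2, a3, a4, a5⟩ | ⟨a1, a2, a3, a4, a5⟩)
        · exact ⟨a1, a2, a3, a4.trans h2, a5⟩
        · exact ⟨a1, a2, by linarith, a4, a5⟩
    rw [this]
  · rw [Set.disjoint_left]
    rintro p ⟨a1, a2, a3, a4, a5⟩ ⟨b1, b2, b3, b4, b5⟩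
    linarith

lemma EE_dg {U : ℝ} (hU : 100 ≤ U) :
    (EE U (2 * U) : ℝ) = dg (SU U) mS Complex.im U (2 * U) := by
  classical
  have hset : ESt U (2 * U) = (((SU U) ×ˢ (SU U)).filter (fun p : ℂ × ℂ => U < p.1.im ∧
      p.1.im ≤ 2 * U ∧ p.1.im = p.2.im) : Finset (ℂ × ℂ)) := by
    ext p
    rw [Finset.mem_coe, Finset.mem_filter, Finset.mem_product]
    unfold SU
    rw [mem_Zf good_zeta (by linarith), mem_Zf good_zeta (by linarith)]
    constructor
    · rintro ⟨⟨b1, b2, b3⟩, ⟨b4, b5, b6⟩, a3, a4, a5⟩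
      exact ⟨⟨⟨b2, b3, by linarith, by linarith, b1⟩, ⟨b5, b6, by linarith, by linarith, b4⟩⟩,
        a3, a4, a5⟩
    · rintro ⟨⟨⟨b1, b2, b3, b4, b5⟩, ⟨c1, c2, c3, c4, c5⟩⟩, a3, a4, a5⟩
      exact ⟨⟨b5, b1, b2⟩, ⟨c5, c1, c2⟩, a3, a4, a5⟩
  unfold EE
  rw [hset, finsum_mem_coe_finset, Finset.sum_filter, Finset.sum_product]
  unfold dg
  push_cast
  refine Finset.sum_congr rfl fun s _ => Finset.sum_congr rfl fun s' _ => ?_
  show (if U < s.im ∧ s.im ≤ 2 * U ∧ s.im = s'.im then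
      (analyticOrderNatAt riemannZeta s : ℝ) * (analyticOrderNatAt riemannZeta s' : ℝ) else 0) =
    mS s * mS s' * (if U < s.im ∧ s.im ≤ 2 * U ∧ s.im = s'.im then 1 else 0)
  rw [mul_ite, mul_one, mul_zero]
  rfl

/-- the quantity of the theorem -/
noncomputable def GG (A T h : ℝ) : ℝ := h * (EE A T : ℝ) + 2 * ∫ k in (0:ℝ)..h, (FF A T k : ℝ)

lemma FF_ii (A T h h' : ℝ) : IntervalIntegrable (fun k => (FF A T k : ℝ)) volume h h' := by
  apply Monotone.intervalIntegrable
  intro k k' hk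
  show (FF A T k : ℝ) ≤ FF A T k'
  exact_mod_cast FF_mono le_rfl hk

lemma GG_add {A B C h : ℝ} (h1 : A ≤ B) (h2 : B ≤ C) : GG A C h = GG A B h + GG B C h := by
  unfold GG
  have e1 : ∫ k in (0:ℝ)..h, (FF A C k : ℝ) =
      (∫ k in (0:ℝ)..h, (FF A B k : ℝ)) + ∫ k in (0:ℝ)..h, (FF B C k : ℝ) := by
    rw [← intervalIntegral.integral_add (FF_ii _ _ _ _) (FF_ii _ _ _ _)]
    refine intervalIntegral.integral_congr fun k _ => ?_
    show (FF A C k : ℝ) = FF A B k + FF B C k
    rw [FF_add h1 h2]; push_cast; rfl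
  rw [e1, EE_add h1 h2]
  push_cast
  ring

lemma GG_nonneg {A T h : ℝ} (hh : 0 ≤ h) : 0 ≤ GG A T h := by
  unfold GG
  have h1 : 0 ≤ ∫ k in (0:ℝ)..h, (FF A T k : ℝ) :=
    intervalIntegral.integral_nonneg hh fun k _ => Nat.cast_nonneg _
  positivity

lemma GG_le {A T T' h : ℝ} (hh : 0 ≤ h) (h3 : h ≤ 3) (hT : T ≤ T') :
    GG A T h ≤ 3 * EE A T' + 6 * FF A T' 3 := by
  unfold GG
  have h1 : ∫ k in (0:ℝ)..h, (FF A T k : ℝ) ≤ ∫ k in (0:ℝ)..h, (FF A T' 3 : ℝ) := by
    refine intervalIntegral.integral_mono_on hh (FF_ii _ _ _ _)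
      (intervalIntegrable_const) fun k hk => ?_
    exact_mod_cast FF_mono hT (hk.2.trans h3)
  rw [intervalIntegral.integral_const, smul_eq_mul, sub_zero] at h1
  have h2 : h * (EE A T : ℝ) ≤ 3 * EE A T' := by
    have : (EE A T : ℝ) ≤ EE A T' := by exact_mod_cast EE_mono hT
    exact mul_le_mul h3 this (Nat.cast_nonneg _) (by norm_num)
  have h4 : h * (FF A T' 3 : ℝ) ≤ 3 * FF A T' 3 :=
    mul_le_mul_of_nonneg_right h3 (Nat.cast_nonneg _)
  linarith

lemma GG_block {U h : ℝ} (hU : 100 ≤ U) (h0 : 0 ≤ h) (h3 : h ≤ 3) : GG U (2 * U) h =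
    h * dg (SU U) mS Complex.im U (2 * U) +
      2 * ∫ k in (0:ℝ)..h, pr (SU U) mS Complex.im U (2 * U) k := by
  unfold GG
  rw [EE_dg hU]
  congr 2
  refine intervalIntegral.integral_congr fun k hk => ?_
  rw [uIcc_of_le h0] at hk
  exact FF_pr hU (by linarith [hk.2])

/-- the main term is additive up to a small error -/
lemma MT_double {V h K : ℝ} (hV : 100 ≤ V) (h0 : 0 < h) (h3 : h ≤ 3) (hK : 0 ≤ K)
    (hc : h ^ 2 * Real.log V ≤ K) : |MT (2 * V) h - MT V h - MT V h| ≤ (K + 20) * V := by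
  have hpi := Real.pi_pos
  have hpi3 := Real.pi_gt_three
  have hV0 : 0 < V := by linarith
  have hlog : Real.log (2 * V) = Real.log 2 + Real.log V := Real.log_mul (by norm_num) hV0.ne'
  have hl0 : 0 < Real.log 2 := Real.log_pos (by norm_num)
  have hl1 : Real.log 2 ≤ 7 / 10 := by have := Real.log_two_lt_d9; linarith
  have hLV : 0 < Real.log V := Real.log_pos (by linarith)
  obtain ⟨L, hL⟩ : ∃ L, L = Real.log V := ⟨_, rfl⟩
  obtain ⟨l, hl⟩ : ∃ l, l = Real.log 2 := ⟨_, rfl⟩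
  rw [← hL] at hc hLV
  rw [← hl] at hl0 hl1
  have e1 : MT (2 * V) h - MT V h - MT V h =
      h ^ 2 * (2 * V) * (l * (2 * L + l)) / (4 * Real.pi ^ 2) +
      2 * V / Real.pi ^ 2 * (Real.log (1 + h * (l + L) / (2 * Real.pi)) -
        Real.log (1 + h * L / (2 * Real.pi))) := by
    unfold MT
    rw [hlog, ← hL, ← hl]
    field_simp
    ring
  have p1 : 0 < 1 + h * L / (2 * Real.pi) := by positivity
  have g1 : 0 ≤ Real.log (1 + h * (l + L) / (2 * Real.pi)) -
      Real.log (1 + h * L / (2 * Real.pi)) := by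
    have : 1 + h * L / (2 * Real.pi) ≤ 1 + h * (l + L) / (2 * Real.pi) := by
      have : h * L ≤ h * (l + L) := mul_le_mul_of_nonneg_left (by linarith) h0.le
      have := div_le_div_of_nonneg_right this (show 0 ≤ 2 * Real.pi by positivity)
      linarith
    have := Real.log_le_log p1 this
    linarith
  have g2 : Real.log (1 + h * (l + L) / (2 * Real.pi)) -
      Real.log (1 + h * L / (2 * Real.pi)) ≤ 1 := by
    have p2 : 0 < 1 + h * (l + L) / (2 * Real.pi) := by positivity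
    rw [← Real.log_div p2.ne' p1.ne']
    have h5 := Real.log_le_sub_one_of_pos (div_pos p2 p1)
    refine h5.trans ?_
    rw [sub_le_iff_le_add, div_le_iff₀ p1]
    have h6 : h * (l + L) / (2 * Real.pi) = h * l / (2 * Real.pi) + h * L / (2 * Real.pi) := by
      ring
    have h7 : h * l / (2 * Real.pi) ≤ 1 := by
      rw [div_le_one (by positivity)]
      nlinarith
    have h8 : 0 ≤ h * L / (2 * Real.pi) := by positivity
    rw [h6]
    nlinarith
  have g3 : 0 ≤ h ^ 2 * (2 * V) * (l * (2 * L + l)) / (4 * Real.pi ^ 2) := by positivity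
  have g4 : h ^ 2 * (2 * V) * (l * (2 * L + l)) / (4 * Real.pi ^ 2) ≤ (K + 18) * V := by
    rw [div_le_iff₀ (by positivity)]
    have e2 : h ^ 2 * (2 * V) * (l * (2 * L + l)) =
        (4 * l) * ((h ^ 2 * L) * V) + 2 * l ^ 2 * h ^ 2 * V := by ring
    have e3 : (4 * l) * ((h ^ 2 * L) * V) ≤ 4 * (K * V) := by
      have : (h ^ 2 * L) * V ≤ K * V := mul_le_mul_of_nonneg_right hc hV0.le
      have h9 : 0 ≤ (h ^ 2 * L) * V := by positivity
      nlinarith
    have e4 : 2 * l ^ 2 * h ^ 2 * V ≤ 18 * V := by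
      have h9 : l ^ 2 ≤ 1 := by nlinarith
      have h10 : h ^ 2 ≤ 9 := by nlinarith
      have h11 : l ^ 2 * h ^ 2 ≤ 1 * 9 := mul_le_mul h9 h10 (by positivity) (by norm_num)
      nlinarith
    have e5 : (4 : ℝ) ≤ 4 * Real.pi ^ 2 := by nlinarith
    have e6 : (K + 18) * V * 4 ≤ (K + 18) * V * (4 * Real.pi ^ 2) :=
      mul_le_mul_of_nonneg_left e5 (by positivity)
    have e7 : 0 ≤ K * V := by positivity
    rw [e2]
    linarith
  have g5 : 2 * V / Real.pi ^ 2 ≤ 2 * V := div_le_self (by positivity) (by nlinarith)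
  have g6 : 0 ≤ 2 * V / Real.pi ^ 2 := by positivity
  have g7 : 2 * V / Real.pi ^ 2 * (Real.log (1 + h * (l + L) / (2 * Real.pi)) -
        Real.log (1 + h * L / (2 * Real.pi))) ≤ 2 * V * 1 := mul_le_mul g5 g2 g1 (by positivity)
  have g8 := mul_nonneg g6 g1
  rw [e1, abs_of_nonneg (by positivity)]
  linarith

/-- the formula up to height `T` -/
theorem main_h (K : ℝ) (hK : 0 ≤ K) : ∃ C T0 : ℝ, 0 < C ∧ 100 ≤ T0 ∧ ∀ T : ℝ, T0 ≤ T →
    10 ≤ Real.log T ∧ ∀ h : ℝ, 0 < h → h ≤ 3 → h ^ 2 * Real.log T ≤ K →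
    |GG 0 T h - MT T h| ≤ C * T := by
  obtain ⟨C, T0, hC, hT0, hb⟩ := block2 K hK
  have hpi := Real.pi_pos
  have hpi3 := Real.pi_gt_three
  obtain ⟨K1, hK1⟩ : ∃ K1 : ℝ, K1 = 3 * (EE 0 (2 * T0) : ℝ) + 6 * FF 0 (2 * T0) 3 := ⟨_, rfl⟩
  have hK10 : 0 ≤ K1 := by rw [hK1]; positivity
  obtain ⟨L2, hL2⟩ : ∃ L2, L2 = Real.log (2 * T0) := ⟨_, rfl⟩
  have hL20 : 0 < L2 := by rw [hL2]; exact Real.log_pos (by linarith)
  obtain ⟨C', hC'⟩ : ∃ C', C' = C + K1 + (K + 1) * L2 + K + 20 := ⟨_, rfl⟩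
  have key : ∀ k : ℕ, ∀ T : ℝ, T0 ≤ T → T ≤ 2 ^ (k + 1) * T0 → ∀ h : ℝ, 0 < h → h ≤ 3 →
      h ^ 2 * Real.log T ≤ K → |GG 0 T h - MT T h| ≤ C' * T := by
    intro k
    induction k with
    | zero =>
      intro T h1 h2 h h0 h3 hc
      have hL := (hb T h1).1
      have hT : 100 ≤ T := by linarith
      have h2' : T ≤ 2 * T0 := by simpa using h2
      have g1 := GG_le (A := 0) h0.le h3 h2'
      have g2 := GG_nonneg (A := 0) (T := T) h0.le
      rw [← hK1] at g1
      have g3 : 0 ≤ MT T h := by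
        unfold MT
        have : 0 ≤ Real.log (1 + h * Real.log T / (2 * Real.pi)) := by
          apply Real.log_nonneg
          have : 0 ≤ h * Real.log T / (2 * Real.pi) := by positivity
          linarith
        positivity
      -- a crude bound by the condition
      have hLT : Real.log T ≤ L2 := by rw [hL2]; exact Real.log_le_log (by linarith) h2'
      have hLp : 0 < Real.log T := by linarith
      have g4 : MT T h ≤ (K + 1) * L2 * T := by
        unfold MT
        have e1 : h ^ 2 * T * Real.log T ^ 2 / (4 * Real.pi ^ 2) ≤ K * L2 * T := by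
          rw [div_le_iff₀ (by positivity)]
          have e2 : h ^ 2 * T * Real.log T ^ 2 = (h ^ 2 * Real.log T) * Real.log T * T := by ring
          have e3 : (h ^ 2 * Real.log T) * Real.log T ≤ K * L2 :=
            mul_le_mul hc hLT hLp.le hK
          have e4 : (h ^ 2 * Real.log T) * Real.log T * T ≤ K * L2 * T :=
            mul_le_mul_of_nonneg_right e3 (by linarith)
          have e5 : K * L2 * T * 1 ≤ K * L2 * T * (4 * Real.pi ^ 2) :=
            mul_le_mul_of_nonneg_left (by nlinarith) (by positivity)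
          rw [e2]
          linarith
        have e6 : T / Real.pi ^ 2 * Real.log (1 + h * Real.log T / (2 * Real.pi)) ≤ L2 * T := by
          have p0 : 0 ≤ h * Real.log T / (2 * Real.pi) := by positivity
          have e7 := Real.log_le_sub_one_of_pos
            (show 0 < 1 + h * Real.log T / (2 * Real.pi) by linarith)
          have e8 : h * Real.log T / (2 * Real.pi) ≤ L2 := by
            rw [div_le_iff₀ (by positivity)]
            nlinarith
          have e9 : T / Real.pi ^ 2 ≤ T := div_le_self (by linarith) (by nlinarith)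
          have e10 : 0 ≤ Real.log (1 + h * Real.log T / (2 * Real.pi)) :=
            Real.log_nonneg (by linarith)
          calc _ ≤ T * L2 := mul_le_mul e9 (by linarith) e10 (by linarith)
            _ = L2 * T := by ring
        linarith
      have g5 : K1 ≤ K1 * T := by nlinarith
      have g6 : 0 ≤ C * T := by positivity
      have g7 : 0 ≤ (K + 20) * T := by positivity
      have g8 : 0 ≤ (K + 1) * L2 * T := by positivity
      have g9 : 0 ≤ K1 * T := by positivity
      have g10 : C' * T = C * T + K1 * T + (K + 1) * L2 * T + (K + 20) * T := by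
        rw [hC']; ring
      rw [g10, abs_le]
      constructor <;> linarith
    | succ k ih =>
      intro T h1 h2 h h0 h3 hc
      rcases le_or_gt T (2 ^ (k + 1) * T0) with h4 | h4
      · exact ih T h1 h4 h h0 h3 hc
      · obtain ⟨V, hV⟩ : ∃ V, V = T / 2 := ⟨_, rfl⟩
        have hTV : T = 2 * V := by rw [hV]; ring
        have hV1 : T0 ≤ V := by
          have : (2 : ℝ) ≤ 2 ^ (k + 1) := by
            calc (2 : ℝ) = 2 ^ 1 := by norm_num
              _ ≤ _ := pow_le_pow_right₀ (by norm_num) (by omega)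
          nlinarith
        have hV2 : V ≤ 2 ^ (k + 1) * T0 := by
          rw [hV, div_le_iff₀ two_pos]
          calc T ≤ 2 ^ (k + 1 + 1) * T0 := h2
            _ = _ := by ring
        have hV0 : 0 < V := by linarith
        obtain ⟨hL, hblk⟩ := hb V hV1
        have hlogm : Real.log V ≤ Real.log T := Real.log_le_log hV0 (by linarith)
        have hc' : h ^ 2 * Real.log V ≤ K :=
          le_trans (mul_le_mul_of_nonneg_left hlogm (by positivity)) hc
        have i1 := ih V hV1 hV2 h h0 h3 hc'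
        have i2 := hblk h h0 h3 hc'
        rw [← GG_block (by linarith) h0.le h3] at i2
        have i3 : GG 0 T h = GG 0 V h + GG V (2 * V) h := by
          rw [hTV, GG_add hV0.le (by linarith)]
        have i4 := MT_double (by linarith) h0 h3 hK hc'
        rw [hTV] at i3 ⊢
        rw [i3]
        have i1' := abs_le.1 i1
        have i2' := abs_le.1 i2
        have i4' := abs_le.1 i4
        have j0 : C' * (2 * V) = C' * V + C' * V := by ring
        have j1 : C' * V = C * V + K1 * V + (K + 1) * L2 * V + (K + 20) * V := by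
          rw [hC']; ring
        have j2 : 0 ≤ K1 * V := by positivity
        have j3 : 0 ≤ (K + 1) * L2 * V := by positivity
        rw [j0, abs_le]
        constructor <;> linarith
  refine ⟨C', T0, by rw [hC']; positivity, hT0, fun T hT => ⟨(hb T hT).1, fun h h0 h3 hc => ?_⟩⟩
  obtain ⟨k, hk⟩ := pow_unbounded_of_one_lt (T / T0) (by norm_num : (1 : ℝ) < 2)
  refine key k T hT ?_ h h0 h3 hc
  rw [div_lt_iff₀ (by linarith)] at hk
  have : (2 : ℝ) ^ k * T0 ≤ 2 ^ (k + 1) * T0 := by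
    rw [pow_succ]
    have : (0 : ℝ) < 2 ^ k * T0 := by positivity
    linarith
  linarith

end Pool.Agent.X127.CS
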