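import Pool.Agent.X127.CS.Rel
import Pool.Agent.X127.CS.Low

set_option autoImplicit false

/-! # The main statements -/

namespace Pool.Agent.X127.CS

open Filter Topology MeasureTheory Set

lemma QQ_ii2 {T : ℝ} (hT : 1 < T) (a b : ℝ) : IntervalIntegrable
    (fun k : ℝ => (QQ T (2 * Real.pi * k / Real.log T) : ℝ)) volume a b := by
  apply Monotone.intervalIntegrable
  intro k k' hk
  show (QQ T (2 * Real.pi * k / Real.log T) : ℝ) ≤ QQ T (2 * Real.pi * k' / Real.log T)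
  have hL := Real.log_pos hT
  have hpi := Real.pi_pos
  have : 2 * Real.pi * k / Real.log T ≤ 2 * Real.pi * k' / Real.log T := by gcongr
  exact_mod_cast QQ_mono this

/-- the discrepancy of the number of pairs -/
noncomputable def dsc (T a : ℝ) : ℝ :=
  (QQ T (2 * Real.pi * a / Real.log T) : ℝ) - XX T * ∫ u in (0:ℝ)..a, pcF u

lemma dsc_ii {T : ℝ} (hT : 1 < T) (a b : ℝ) : IntervalIntegrable (dsc T) volume a b :=
  (QQ_ii2 hT a b).sub ((inner_cont.intervalIntegrable a b).const_mul (XX T))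

/-- the average discrepancy -/
theorem disc_avg (B : ℝ) (hB : 0 < B) : ∃ C T0 : ℝ, 0 < C ∧ 100 ≤ T0 ∧ ∀ T : ℝ, T0 ≤ T →
    ∀ b : ℝ, 0 ≤ b → b ≤ B * Real.sqrt (Real.log T) →
    |(∫ a in (0:ℝ)..b, dsc T a) + b / 2 * ((EE 0 T : ℝ) - XX T)| ≤ C * XX T := by
  obtain ⟨C, T0, hC, hT0, hm⟩ := main_b B hB
  have hpi := Real.pi_pos
  refine ⟨C + 12, T0, by linarith, hT0, fun T hT b hb hbB => ?_⟩
  have hT1 : 1 < T := by linarith
  have hX : 0 < XX T := by
    unfold XX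
    have := Real.log_pos hT1
    positivity
  rcases hb.eq_or_lt with h0 | h0
  · rw [← h0]
    simp
    positivity
  obtain ⟨-, hmm⟩ := hm T hT
  have h1 := hmm b h0 hbB
  have h2 := gue hb
  have h3 : ∫ a in (0:ℝ)..b, dsc T a =
      (∫ a in (0:ℝ)..b, (QQ T (2 * Real.pi * a / Real.log T) : ℝ)) -
      XX T * ∫ a in (0:ℝ)..b, ∫ u in (0:ℝ)..a, pcF u := by
    unfold dsc
    rw [intervalIntegral.integral_sub (QQ_ii2 hT1 _ _)
      ((inner_cont.intervalIntegrable _ _).const_mul _), intervalIntegral.integral_const_mul]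
  rw [h3]
  obtain ⟨I, hI⟩ : ∃ I, I = ∫ a in (0:ℝ)..b, (QQ T (2 * Real.pi * a / Real.log T) : ℝ) :=
    ⟨_, rfl⟩
  obtain ⟨J, hJ⟩ : ∃ J, J = ∫ a in (0:ℝ)..b, ∫ u in (0:ℝ)..a, pcF u := ⟨_, rfl⟩
  rw [← hI] at h1 ⊢
  rw [← hJ] at h2 ⊢
  have e1 : I - XX T * J + b / 2 * ((EE 0 T : ℝ) - XX T) =
      (I - (b ^ 2 / 2 * XX T - b / 2 * (EE 0 T : ℝ) +
        Real.log (1 + b) / (2 * Real.pi ^ 2) * XX T)) -
      XX T * (J - (b ^ 2 / 2 - b / 2 + Real.log (1 + b) / (2 * Real.pi ^ 2))) := by ring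
  rw [e1]
  refine (abs_sub _ _).trans ?_
  rw [abs_mul, abs_of_pos hX]
  have h4 := mul_le_mul_of_nonneg_left h2 hX.le
  linarith

/-- the discrepancy is bounded above on average -/
theorem disc_up (B : ℝ) (hB : 0 < B) : ∃ C T0 : ℝ, 0 < C ∧ 100 ≤ T0 ∧ ∀ T : ℝ, T0 ≤ T →
    ∀ b : ℝ, 0 ≤ b → b ≤ B * Real.sqrt (Real.log T) →
    (∫ a in (0:ℝ)..b, dsc T a) ≤ C * XX T := by
  obtain ⟨C, T0, hC, hT0, hm⟩ := disc_avg B hB
  obtain ⟨C1, T1, hC1, hT1, hl⟩ := EE_low
  have hpi := Real.pi_pos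
  have hpi4 := Real.pi_lt_d2
  refine ⟨C + 4 * B * C1, max T0 T1, by positivity, hT0.trans (le_max_left _ _),
    fun T hT b hb hbB => ?_⟩
  have h1 := (abs_le.1 (hm T ((le_max_left _ _).trans hT) b hb hbB)).2
  have h2 := hl T ((le_max_right _ _).trans hT)
  have hT3 : 100 ≤ T := hT0.trans ((le_max_left _ _).trans hT)
  have hL1 : 1 ≤ Real.log T := by
    rw [Real.le_log_iff_exp_le (by linarith)]
    have := Real.exp_one_lt_d9
    linarith
  have h3 : XX T - C1 * T ≤ (EE 0 T : ℝ) := h2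
  have h4 : -(b / 2 * (C1 * T)) ≤ b / 2 * ((EE 0 T : ℝ) - XX T) := by
    have : b / 2 * (-(C1 * T)) ≤ b / 2 * ((EE 0 T : ℝ) - XX T) :=
      mul_le_mul_of_nonneg_left (by linarith) (by linarith)
    linarith
  have h5 : b / 2 * (C1 * T) ≤ 4 * B * C1 * XX T := by
    unfold XX
    have e1 : Real.sqrt (Real.log T) ≤ Real.log T := by
      rw [Real.sqrt_le_left (by linarith)]
      nlinarith
    have e2 : b ≤ B * Real.log T := hbB.trans (mul_le_mul_of_nonneg_left e1 hB.le)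
    have e3 : b / 2 * (C1 * T) ≤ B * Real.log T / 2 * (C1 * T) :=
      mul_le_mul_of_nonneg_right (by linarith) (by positivity)
    refine e3.trans ?_
    have e4 : 4 * B * C1 * (T * Real.log T / (2 * Real.pi)) =
        B * Real.log T / 2 * (C1 * T) * (4 / Real.pi) := by field_simp
    rw [e4]
    have e5 : 1 ≤ 4 / Real.pi := by rw [le_div_iff₀ hpi]; linarith
    have e6 : 0 ≤ B * Real.log T / 2 * (C1 * T) := by positivity
    nlinarith
  linarith

/-- the average over the position of the window -/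
theorem win_avg (B : ℝ) (hB : 0 < B) : ∃ C T0 : ℝ, 0 < C ∧ 100 ≤ T0 ∧ ∀ T : ℝ, T0 ≤ T →
    ∀ A A' β : ℝ, 0 ≤ A → A ≤ A' → 0 ≤ β → A' + β ≤ B * Real.sqrt (Real.log T) →
    |∫ α in A..A', ((ps T (fun s s' => α ≤ (s.im - s'.im) * Real.log T / (2 * Real.pi) ∧
      (s.im - s'.im) * Real.log T / (2 * Real.pi) ≤ α + β) : ℝ) -
      XX T * ∫ u in α..(α + β), pcF u)| ≤ C * XX T := by
  classical
  obtain ⟨C, T0, hC, hT0, hm⟩ := disc_avg B hB
  refine ⟨4 * C, T0, by linarith, hT0, fun T hT A A' β hA hAA hβ hAB => ?_⟩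
  have hT1 : 1 < T := by linarith
  have e1 : ∫ α in A..A', ((ps T (fun s s' => α ≤ (s.im - s'.im) * Real.log T / (2 * Real.pi) ∧
      (s.im - s'.im) * Real.log T / (2 * Real.pi) ≤ α + β) : ℝ) -
      XX T * ∫ u in α..(α + β), pcF u) = ∫ α in A..A', (dsc T (α + β) - dsc T α) := by
    apply intervalIntegral.integral_congr_ae
    filter_upwards [win_ae T β hβ] with α hα hmem
    rw [uIoc_of_le hAA] at hmem
    have hα0 : 0 < α := hA.trans_lt hmem.1
    rw [hα hα0]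
    unfold dsc
    rw [QQ_eq hT1, QQ_eq hT1]
    have e2 := intervalIntegral.integral_add_adjacent_intervals (pcF_ii 0 α) (pcF_ii α (α + β))
    rw [← e2]
    ring
  rw [e1, shift_int (fun a b => dsc_ii hT1 a b)]
  have h1 := hm T hT (A' + β) (by linarith) hAB
  have h2 := hm T hT (A + β) (by linarith) (by linarith)
  have h3 := hm T hT A' (by linarith) (by linarith)
  have h4 := hm T hT A hA (by linarith)
  rw [abs_le] at h1 h2 h3 h4 ⊢
  constructor <;> linarith [h1.1, h1.2, h2.1, h2.2, h3.1, h3.2, h4.1, h4.2]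

end Pool.Agent.X127.CS
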